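import Mathlib

set_option autoImplicit false

namespace Pool.Agent.RelRoots

/-- Roots of unity are dense in the circle. -/
lemma roots_dense (ζ : ℂ) (hζ : ‖ζ‖ = 1) (s : Set ℂ) (hs : s ∈ nhds ζ) :
    ∃ ω ∈ s, ∃ n : ℕ, 0 < n ∧ ω ^ n = 1 := by
  -- write ζ = exp (2 π x I)
  obtain ⟨θ, hθ⟩ : ∃ θ : ℝ, Complex.exp (θ * Complex.I) = ζ := by
    refine ⟨Complex.arg ζ, ?_⟩
    have := Complex.norm_mul_exp_arg_mul_I ζ
    rw [hζ] at this
    simpa using this
  let f : ℝ → ℂ := fun x => Complex.exp ((2 * Real.pi * x : ℝ) * Complex.I)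
  have hf : Continuous f := by fun_prop
  have hpi : (2 * Real.pi) ≠ 0 := by positivity
  have hfx : f (θ / (2 * Real.pi)) = ζ := by
    simp only [f]
    rw [mul_div_cancel₀ _ hpi]
    exact hθ
  have hmem : f ⁻¹' s ∈ nhds (θ / (2 * Real.pi)) := by
    apply hf.continuousAt.preimage_mem_nhds
    rw [hfx]; exact hs
  obtain ⟨q, hq⟩ := Rat.denseRange_cast (𝕜 := ℝ) |>.exists_mem_open isOpen_interior
    (⟨_, mem_interior_iff_mem_nhds.2 hmem⟩)
  refine ⟨f q, (interior_subset : interior (f ⁻¹' s) ⊆ f ⁻¹' s) hq, q.den, q.den_pos, ?_⟩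
  simp only [f]
  rw [← Complex.exp_nat_mul]
  rw [Complex.exp_eq_one_iff]
  refine ⟨q.num, ?_⟩
  have h1 : (q : ℝ) * q.den = q.num := by
    exact_mod_cast Rat.mul_den_eq_num q
  have h2 : ((q : ℝ) : ℂ) * (q.den : ℂ) = (q.num : ℂ) := by
    exact_mod_cast h1
  push_cast
  rw [← h2]
  push_cast
  ring

lemma key (c b : ℂ → ℂ) (hc : Differentiable ℂ c) (hb : Differentiable ℂ b) (ε : ℝ)
    (h0 : ‖c 0‖ < ‖b 0‖)
    (hn : ∀ y, y ≠ 0 → ‖y‖ < ε → ∀ n : ℕ, 0 < n → c y ^ n ≠ b y ^ n) :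
    ∀ y, ‖y‖ < ε → ‖c y‖ < ‖b y‖ := by
  by_contra hcon
  push Not at hcon
  obtain ⟨y1, hy1, hle⟩ := hcon
  -- intermediate value along the segment
  let f : ℝ → ℝ := fun t => ‖c (t * y1)‖ - ‖b (t * y1)‖
  have hfc : Continuous f := by
    have h1 : Continuous c := hc.continuous
    have h2 : Continuous b := hb.continuous
    fun_prop
  have hf0 : f 0 < 0 := by simp only [f]; simp; exact h0
  have hf1 : 0 ≤ f 1 := by simp only [f]; simp; exact hle
  obtain ⟨t, ht, hft⟩ := intermediate_value_Icc (zero_le_one) hfc.continuousOn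
    (show (0 : ℝ) ∈ Set.Icc (f 0) (f 1) from ⟨hf0.le, hf1⟩)
  have ht0 : t ≠ 0 := by
    rintro rfl
    exact absurd hft hf0.ne
  have hy10 : y1 ≠ 0 := by
    rintro rfl
    exact absurd hle (not_le.2 h0)
  set y2 : ℂ := t * y1 with hy2
  have hy20 : y2 ≠ 0 := mul_ne_zero (by exact_mod_cast ht0) hy10
  have hy2n : ‖y2‖ < ε := by
    rw [hy2, norm_mul, Complex.norm_real, Real.norm_of_nonneg ht.1]
    calc t * ‖y1‖ ≤ 1 * ‖y1‖ := by
          apply mul_le_mul_of_nonneg_right ht.2 (norm_nonneg _)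
      _ < ε := by rw [one_mul]; exact hy1
  have heq : ‖c y2‖ = ‖b y2‖ := by
    have : f t = ‖c y2‖ - ‖b y2‖ := rfl
    linarith
  have hb2 : b y2 ≠ 0 := by
    intro hb0
    have hc0 : c y2 = 0 := by
      rw [← norm_eq_zero, heq, hb0, norm_zero]
    exact hn y2 hy20 hy2n 1 one_pos (by rw [hb0, hc0])
  let g : ℂ → ℂ := fun y => c y / b y
  have hg : AnalyticAt ℂ g y2 := by
    apply AnalyticAt.fun_div (hc.analyticAt y2) (hb.analyticAt y2) hb2
  have hgn : ‖g y2‖ = 1 := by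
    simp only [g]
    rw [norm_div, heq, div_self]
    exact norm_ne_zero_iff.2 hb2
  have hnear : ∀ᶠ y in nhds y2, b y ≠ 0 := hb.continuous.continuousAt.eventually_ne hb2
  rcases hg.eventually_constant_or_nhds_le_map_nhds with hconst | hopen
  · -- constant case
    have h1 : c =ᶠ[nhds y2] fun y => g y2 * b y := by
      filter_upwards [hconst, hnear] with y hy hby
      rw [← hy]
      simp only [g]
      field_simp
    have h2 : c = fun y => g y2 * b y := by
      apply AnalyticOnNhd.eq_of_eventuallyEq (𝕜 := ℂ) (z₀ := y2) _ _ h1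
      · intro z _; exact hc.analyticAt z
      · intro z _; exact (analyticAt_const).mul (hb.analyticAt z)
    have h3 : ‖c 0‖ = ‖b 0‖ := by
      have := congrFun h2 0
      rw [this, norm_mul, hgn, one_mul]
    exact absurd h3 h0.ne
  · -- open case
    have hU : {y : ℂ | y ≠ 0 ∧ ‖y‖ < ε ∧ b y ≠ 0} ∈ nhds y2 := by
      have h1 : ∀ᶠ y in nhds y2, y ≠ 0 := eventually_ne_nhds hy20
      have h2 : ∀ᶠ y in nhds y2, ‖y‖ < ε :=
        (continuous_norm.continuousAt).eventually_lt_const hy2n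
      filter_upwards [h1, h2, hnear] with y a1 a2 a3
      exact ⟨a1, a2, a3⟩
    have himg : g '' {y : ℂ | y ≠ 0 ∧ ‖y‖ < ε ∧ b y ≠ 0} ∈ nhds (g y2) :=
      hopen (Filter.image_mem_map hU)
    obtain ⟨ω, ⟨y, ⟨hy0, hyn, hby⟩, rfl⟩, n, hn0, hω⟩ := roots_dense (g y2) hgn _ himg
    apply hn y hy0 hyn n hn0
    simp only [g, div_pow] at hω
    rw [div_eq_one_iff_eq (pow_ne_zero _ hby)] at hω
    exact hω

/-- Schwarz-Pick type bound for maps to the half plane `Re > 1/2`. -/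
lemma deriv_bound (w : ℂ → ℂ) (ε W : ℝ) (hε : 0 < ε)
    (hw : DifferentiableOn ℂ w (Metric.ball 0 ε))
    (hre : ∀ y ∈ Metric.ball (0 : ℂ) ε, 1 / 2 < (w y).re) (hW : w 0 = W) :
    ‖deriv w 0‖ ≤ (2 * W - 1) / ε := by
  have hW2 : 1 / 2 < W := by
    have := hre 0 (Metric.mem_ball_self hε)
    rw [hW] at this
    simpa using this
  let ψ : ℂ → ℂ := fun y => (w y - W) / (w y + W - 1)
  have hne : ∀ y ∈ Metric.ball (0 : ℂ) ε, w y + W - 1 ≠ 0 := by
    intro y hy h
    have h1 := hre y hy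
    have h2 := congrArg Complex.re h
    simp at h2
    linarith
  have hψ : DifferentiableOn ℂ ψ (Metric.ball 0 ε) := by
    apply DifferentiableOn.div
    · exact hw.sub_const _
    · exact (hw.add_const _).sub_const _
    · exact hne
  have hψ0 : ψ 0 = 0 := by simp [ψ, hW]
  have hmaps : Set.MapsTo ψ (Metric.ball 0 ε) (Metric.closedBall (ψ 0) 1) := by
    intro y hy
    rw [hψ0, mem_closedBall_zero_iff]
    simp only [ψ]
    rw [norm_div, div_le_one (norm_pos_iff.2 (hne y hy))]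
    have h1 := hre y hy
    rw [← Real.sqrt_sq (norm_nonneg (w y - W)), ← Real.sqrt_sq (norm_nonneg (w y + W - 1))]
    apply Real.sqrt_le_sqrt
    rw [← Complex.normSq_eq_norm_sq, ← Complex.normSq_eq_norm_sq]
    rw [Complex.normSq_apply, Complex.normSq_apply]
    simp
    nlinarith
  have hmain := Complex.norm_deriv_le_div_of_mapsTo_ball hψ hmaps hε
  have hw0 : DifferentiableAt ℂ w 0 :=
    (hw 0 (Metric.mem_ball_self hε)).differentiableAt (Metric.ball_mem_nhds _ hε)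
  have hd : HasDerivAt ψ (deriv w 0 / (2 * W - 1)) 0 := by
    have h1 := (hw0.hasDerivAt.sub_const (W : ℂ)).fun_div
      ((hw0.hasDerivAt.add_const (W : ℂ)).sub_const 1) (hne 0 (Metric.mem_ball_self hε))
    refine h1.congr_deriv ?_
    rw [hW]
    have : (W : ℂ) + W - 1 = 2 * W - 1 := by ring
    rw [this]
    have h3 : (2 * (W : ℂ) - 1) ≠ 0 := by
      have := hne 0 (Metric.mem_ball_self hε)
      rw [hW] at this
      intro h; apply this; rw [← h]; ring
    field_simp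
    ring
  rw [hd.deriv] at hmain
  have h4 : ‖(2 * (W : ℂ) - 1)‖ = 2 * W - 1 := by
    have : (2 * (W : ℂ) - 1) = ((2 * W - 1 : ℝ) : ℂ) := by push_cast; ring
    rw [this, Complex.norm_real, Real.norm_of_nonneg (by linarith)]
  rw [norm_div, h4, div_le_iff₀ (by linarith)] at hmain
  calc ‖deriv w 0‖ ≤ 1 / ε * (2 * W - 1) := hmain
    _ = (2 * W - 1) / ε := by ring

end Pool.Agent.RelRoots
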