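import Mathlib

/-!
# The reliability polynomial of a matroid, in both normalisations, and binary matroids
-/

namespace Pool.Agent.RelRootsBin

/-- `F_i`: the number of independent sets of size `i` of the matroid `M`. -/
noncomputable def numIndep {α : Type} (M : Matroid α) (i : ℕ) : ℕ :=
  {I : Set α | M.Indep I ∧ I.ncard = i}.ncard

/-- The reliability polynomial `∑_{i=0}^r F_i p^i (1-p)^(m-i)`, where `r` is the rank of `M` and
`m` is the number of its elements. -/
noncomputable def relPoly {α : Type} (M : Matroid α) : Polynomial ℂ :=
  ∑ i ∈ Finset.range (M.eRank.toNat + 1),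
    (numIndep M i : Polynomial ℂ) * Polynomial.X ^ i * (1 - Polynomial.X) ^ (M.E.ncard - i)

/-- The number of spanning sets of size `i` of the matroid `M`. -/
noncomputable def numSpan {α : Type} (M : Matroid α) (i : ℕ) : ℕ :=
  {S : Set α | M.Spanning S ∧ S.ncard = i}.ncard

/-- The polynomial `∑_{i=0}^m S_i p^i (1-p)^(m-i)`, where `S_i` is the number of spanning sets of
size `i` of `M` and `m` is the number of its elements. -/
noncomputable def spanPoly {α : Type} (M : Matroid α) : Polynomial ℂ :=
  ∑ i ∈ Finset.range (M.E.ncard + 1),
    (numSpan M i : Polynomial ℂ) * Polynomial.X ^ i * (1 - Polynomial.X) ^ (M.E.ncard - i)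

/-- The matroid `M` is binary: it has the same independent sets as some family of vectors, indexed
by its elements, of a vector space over the field with two elements. -/
def IsBinary {α : Type} (M : Matroid α) : Prop :=
  ∃ (V : Type) (_ : AddCommGroup V) (_ : Module (ZMod 2) V) (v : α → V),
    ∀ I : Set α, I ⊆ M.E → (M.Indep I ↔ LinearIndependent (ZMod 2) (fun i : I => v i))

end Pool.Agent.RelRootsBin
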