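import Mathlib
import Pool.Agent.RelRoots.OwnDefs

set_option autoImplicit false
open Classical

namespace Pool.Agent.RelRootsBin

lemma sum_sets {n : ℕ} (P : Set (Fin n) → Prop) (N : ℕ)
    (hN : ∀ S : Finset (Fin n), P (S : Set (Fin n)) → S.card < N) (z : ℂ) :
    (∑ i ∈ Finset.range N, (({I : Set (Fin n) | P I ∧ I.ncard = i}.ncard : ℕ) : ℂ) * z ^ i *
      (1 - z) ^ (n - i)) =
    ∑ S : Finset (Fin n), if P (S : Set (Fin n)) then z ^ S.card * (1 - z) ^ (n - S.card) else 0 := by
  have h1 : ∀ i, {I : Set (Fin n) | P I ∧ I.ncard = i}.ncard =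
      ((Finset.univ : Finset (Finset (Fin n))).filter
        (fun S : Finset (Fin n) => P (S : Set (Fin n)) ∧ S.card = i)).card := by
    intro i
    rw [← Set.ncard_coe_finset]
    apply Set.ncard_congr (fun I _ => I.toFinset)
    · intro I hI
      simp only [Finset.coe_filter, Finset.mem_univ, true_and, Set.mem_setOf_eq, Set.coe_toFinset]
      refine ⟨hI.1, ?_⟩
      rw [← hI.2, Set.ncard_eq_toFinset_card']
    · intro I J _ _ h
      exact Set.toFinset_inj.1 h
    · intro S hS
      simp only [Finset.coe_filter, Finset.mem_univ, true_and, Set.mem_setOf_eq] at hS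
      refine ⟨(S : Set (Fin n)), ⟨hS.1, ?_⟩, ?_⟩
      · rw [Set.ncard_coe_finset]; exact hS.2
      · simp
  rw [← Finset.sum_filter]
  rw [← Finset.sum_fiberwise_of_maps_to (s := Finset.univ.filter
    (fun S : Finset (Fin n) => P (S : Set (Fin n)))) (t := Finset.range N) (g := fun S => S.card)
    (fun S hS => Finset.mem_range.2 (hN S (Finset.mem_filter.1 hS).2))]
  apply Finset.sum_congr rfl
  intro i _
  rw [h1, Finset.filter_filter, Finset.sum_congr rfl (g := fun _ => z ^ i * (1 - z) ^ (n - i))]
  · rw [Finset.sum_const, nsmul_eq_mul]; ring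
  · intro S hS
    rw [(Finset.mem_filter.1 hS).2.2]

lemma relPoly_eval {n : ℕ} (M : Matroid (Fin n)) (hE : M.E = Set.univ) (z : ℂ) :
    (relPoly M).eval z = ∑ S : Finset (Fin n), if M.Indep (S : Set (Fin n)) then
      z ^ S.card * (1 - z) ^ (n - S.card) else 0 := by
  have hm : M.E.ncard = n := by rw [hE]; simp [Set.ncard_univ]
  rw [← sum_sets (fun I => M.Indep I) (M.eRank.toNat + 1)]
  · unfold relPoly numIndep
    rw [hm]
    simp [Polynomial.eval_finsetSum]
  · intro S hS
    have h1 := hS.encard_le_eRank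
    rw [Set.encard_coe_eq_coe_finsetCard] at h1
    have h2 : M.eRank ≠ ⊤ := by
      have h3 : M.eRank ≤ M.E.encard := M.eRank_le_encard_ground
      rw [hE] at h3
      intro h4
      rw [h4, top_le_iff] at h3
      exact (Set.encard_ne_top_iff.2 (Set.toFinite _)) h3
    have h5 : S.card ≤ M.eRank.toNat := by
      rw [← ENat.natCast_le_natCast, ENat.natCast_toNat h2]
      exact h1
    omega

lemma spanPoly_eval {n : ℕ} (M : Matroid (Fin n)) (hE : M.E = Set.univ) (z : ℂ) :
    (spanPoly M).eval z = ∑ S : Finset (Fin n), if M.Spanning (S : Set (Fin n)) then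
      z ^ S.card * (1 - z) ^ (n - S.card) else 0 := by
  have hm : M.E.ncard = n := by rw [hE]; simp [Set.ncard_univ]
  rw [← sum_sets (fun I => M.Spanning I) (n + 1)]
  · unfold spanPoly numSpan
    rw [hm]
    simp [Polynomial.eval_finsetSum]
  · intro S _
    have : S.card ≤ n := by
      have := Finset.card_le_univ S
      simpa using this
    omega

end Pool.Agent.RelRootsBin
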