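import Mathlib

set_option autoImplicit false

namespace Pool.Agent.RelRoots

/-- `In W I`: no nonzero word of the code `W` is supported inside `I`. -/
def In {ι : Type} (W : Submodule (ZMod 2) (ι → ZMod 2)) (I : Finset ι) : Prop :=
  ∀ c ∈ W, (∀ i, i ∉ I → c i = 0) → c = 0

/-- `Sp W S`: no nonzero word of the code `W` vanishes on `S`. -/
def Sp {ι : Type} (W : Submodule (ZMod 2) (ι → ZMod 2)) (S : Finset ι) : Prop :=
  ∀ c ∈ W, (∀ i ∈ S, c i = 0) → c = 0

lemma In_empty {ι : Type} (W : Submodule (ZMod 2) (ι → ZMod 2)) : In W ∅ := by
  intro c _ h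
  funext i
  exact h i (by simp)

lemma In_subset {ι : Type} (W : Submodule (ZMod 2) (ι → ZMod 2)) {I J : Finset ι}
    (hJ : In W J) (hIJ : I ⊆ J) : In W I := by
  intro c hc h
  exact hJ c hc (fun i hi => h i (fun h' => hi (hIJ h')))

lemma zmod2_ne_zero {a : ZMod 2} (h : a ≠ 0) : a = 1 := by
  revert a; decide

lemma In_aug {ι : Type} [Fintype ι] [DecidableEq ι] (W : Submodule (ZMod 2) (ι → ZMod 2)) {I J : Finset ι}
    (hI : In W I) (hJ : In W J) (hc : I.card < J.card) :
    ∃ e ∈ J, e ∉ I ∧ In W (insert e I) := by
  by_contra hcon
  push Not at hcon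
  let π := W.mkQ
  let y : ι → ((ι → ZMod 2) ⧸ W) := fun i => π (Pi.single i 1)
  -- linear independence of y on J
  have hlin : LinearIndependent (ZMod 2) (fun j : J => y j) := by
    rw [Fintype.linearIndependent_iff]
    intro g hg j
    let c : ι → ZMod 2 := ∑ j : J, g j • Pi.single (j : ι) 1
    have hcW : c ∈ W := by
      rw [← Submodule.ker_mkQ W, LinearMap.mem_ker]
      rw [← hg]
      simp only [c, map_sum, map_smul]
      rfl
    have hcval : ∀ i, c i = ∑ j : J, if (j : ι) = i then g j else 0 := by
      intro i
      simp only [c, Finset.sum_apply, Pi.smul_apply, smul_eq_mul, Pi.single_apply]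
      apply Finset.sum_congr rfl
      intro j _
      by_cases h : (j : ι) = i
      · simp [h]
      · simp [h, Ne.symm h]
    have hc0 : c = 0 := by
      apply hJ c hcW
      intro i hi
      rw [hcval]
      apply Finset.sum_eq_zero
      intro j _
      have : (j : ι) ≠ i := by
        intro h; apply hi; rw [← h]; exact j.2
      simp [this]
    have := hcval j
    rw [hc0] at this
    simp only [Pi.zero_apply] at this
    rw [Finset.sum_eq_single j] at this
    · simpa using this.symm
    · intro b _ hb
      have : (b : ι) ≠ j := fun h => hb (Subtype.ext h)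
      simp [this]
    · simp
  have hspan : ∀ j ∈ J, y j ∈ Submodule.span (ZMod 2) (y '' (I : Set ι)) := by
    intro j hj
    by_cases hjI : j ∈ I
    · exact Submodule.subset_span ⟨j, hjI, rfl⟩
    · have h1 := hcon j hj hjI
      unfold In at h1
      push Not at h1
      obtain ⟨c, hcW, hsupp, hne⟩ := h1
      have hcj : c j = 1 := by
        apply zmod2_ne_zero
        intro h0
        apply hne
        apply hI c hcW
        intro i hi
        by_cases hij : i = j
        · rw [hij]; exact h0
        · exact hsupp i (by simp [hij, hi])
      have hdec : c = Pi.single j 1 + ∑ i ∈ I, c i • Pi.single i (1 : ZMod 2) := by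
        funext k
        simp only [Pi.add_apply, Finset.sum_apply, Pi.smul_apply, smul_eq_mul, Pi.single_apply]
        by_cases hk : k = j
        · subst hk
          rw [Finset.sum_eq_zero]
          · simp [hcj]
          · intro i hi
            have : k ≠ i := fun h => hjI (h ▸ hi)
            simp [this]
        · by_cases hkI : k ∈ I
          · rw [Finset.sum_eq_single k]
            · simp [hk]
            · intro b _ hb
              simp [Ne.symm hb]
            · intro h; exact absurd hkI h
          · rw [Finset.sum_eq_zero]
            · simp [hk]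
              exact hsupp k (by simp [hk, hkI])
            · intro i hi
              have : k ≠ i := fun h => hkI (h ▸ hi)
              simp [this]
      have h2 : π c = 0 := by
        rw [← LinearMap.mem_ker]
        simpa [π] using hcW
      rw [hdec] at h2
      rw [map_add, map_sum] at h2
      have h3 : y j = - ∑ i ∈ I, c i • y i := by
        rw [eq_neg_iff_add_eq_zero]
        simpa [y] using h2
      rw [h3]
      apply Submodule.neg_mem
      apply Submodule.sum_mem
      intro i hi
      apply Submodule.smul_mem
      exact Submodule.subset_span ⟨i, hi, rfl⟩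
  haveI : DecidableEq ((ι → ZMod 2) ⧸ W) := Classical.decEq _
  have hle := linearIndependent_le_span_aux' (R := ZMod 2) (fun j : J => y j) hlin
    ((I.image y : Finset _) : Set _) (by
      rintro _ ⟨j, rfl⟩
      have := hspan j j.2
      simpa using this)
  have h4 : (I.image y).card ≤ I.card := Finset.card_image_le
  simp only [Fintype.card_coe, Finset.coe_sort_coe] at hle
  omega

/-- The dual of the matroid on `Fin n` whose independent sets are given by `In W`. -/
noncomputable def codeMatroid (n : ℕ) (W : Submodule (ZMod 2) (Fin n → ZMod 2)) :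
    Matroid (Fin n) :=
  ((IndepMatroid.ofFinset (Set.univ : Set (Fin n)) (In W) (In_empty W)
    (fun _ _ h h' => In_subset W h h') (fun _ _ h h' h'' => In_aug W h h' h'')
    (fun _ _ => Set.subset_univ _)).matroid)✶

lemma codeMatroid_E (n : ℕ) (W : Submodule (ZMod 2) (Fin n → ZMod 2)) :
    (codeMatroid n W).E = Set.univ := by
  simp [codeMatroid]

lemma codeMatroid_spanning (n : ℕ) (W : Submodule (ZMod 2) (Fin n → ZMod 2))
    (S : Finset (Fin n)) : (codeMatroid n W).Spanning (S : Set (Fin n)) ↔ Sp W S := by
  rw [Matroid.spanning_iff_compl_coindep (by rw [codeMatroid_E]; exact Set.subset_univ _),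
    Matroid.coindep_def, codeMatroid_E]
  have : (Set.univ \ (S : Set (Fin n))) = ((Sᶜ : Finset (Fin n)) : Set (Fin n)) := by
    ext i; simp
  rw [this]
  unfold codeMatroid
  rw [Matroid.dual_dual]
  simp only [IndepMatroid.matroid_Indep]
  rw [IndepMatroid.ofFinset_indep]
  unfold In Sp
  simp

end Pool.Agent.RelRoots
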