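import Mathlib
import Pool.Agent.RelRoots.CodeMatroid

set_option autoImplicit false
open Classical

namespace Pool.Agent.RelRoots

/-- `S` determines every word of `W` (a code with a distinguished coordinate). -/
def SA {ι : Type} (W : Submodule (ZMod 2) ((ι → ZMod 2) × ZMod 2)) (S : Finset ι) : Prop :=
  ∀ x ∈ W, (∀ i ∈ S, x.1 i = 0) → x = 0

/-- `S` together with the distinguished coordinate determines every word of `W`. -/
def SC {ι : Type} (W : Submodule (ZMod 2) ((ι → ZMod 2) × ZMod 2)) (S : Finset ι) : Prop :=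
  ∀ x ∈ W, x.2 = 0 → (∀ i ∈ S, x.1 i = 0) → x = 0

lemma SA.SC {ι : Type} {W : Submodule (ZMod 2) ((ι → ZMod 2) × ZMod 2)} {S : Finset ι}
    (h : SA W S) : SC W S := fun x hx _ h' => h x hx h'

/-- A two-terminal network: a binary code with a distinguished coordinate. -/
structure Net where
  ι : Type
  fin : Fintype ι
  W : Submodule (ZMod 2) ((ι → ZMod 2) × ZMod 2)
  nc : ∀ t : ZMod 2, ((0 : ι → ZMod 2), t) ∈ W → t = 0

attribute [instance] Net.fin

noncomputable def Net.a (N : Net) (v : ℂ) : ℂ :=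
  ∑ S : Finset N.ι, if SA N.W S then v ^ S.card else 0

noncomputable def Net.b (N : Net) (v : ℂ) : ℂ :=
  ∑ S : Finset N.ι, if SC N.W S ∧ ¬ SA N.W S then v ^ S.card else 0

noncomputable def Net.c (N : Net) (v : ℂ) : ℂ :=
  ∑ S : Finset N.ι, if SC N.W S then v ^ S.card else 0

lemma Net.a_add_b (N : Net) (v : ℂ) : N.a v + N.b v = N.c v := by
  unfold Net.a Net.b Net.c
  rw [← Finset.sum_add_distrib]
  apply Finset.sum_congr rfl
  intro S _
  by_cases h1 : SA N.W S
  · simp [h1, h1.SC]
  · simp [h1]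

section comp

variable {J : Type} [Fintype J] (H : Submodule (ZMod 2) ((J → ZMod 2) × ZMod 2))
  (N : J → Net)

/-- The composite code. -/
def compW : Submodule (ZMod 2) (((Σ j, (N j).ι) → ZMod 2) × ZMod 2) where
  carrier := {x | ∃ h : J → ZMod 2, (h, x.2) ∈ H ∧ ∀ j, ((fun i => x.1 ⟨j, i⟩), h j) ∈ (N j).W}
  add_mem' := by
    rintro x y ⟨h, h1, h2⟩ ⟨k, k1, k2⟩
    exact ⟨h + k, H.add_mem h1 k1, fun j => (N j).W.add_mem (h2 j) (k2 j)⟩
  zero_mem' := ⟨0, H.zero_mem, fun j => (N j).W.zero_mem⟩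
  smul_mem' := by
    rintro r x ⟨h, h1, h2⟩
    exact ⟨r • h, H.smul_mem r h1, fun j => (N j).W.smul_mem r (h2 j)⟩

omit [Fintype J] in
lemma mem_compW (x : ((Σ j, (N j).ι) → ZMod 2) × ZMod 2) : x ∈ compW H N ↔
    ∃ h : J → ZMod 2, (h, x.2) ∈ H ∧ ∀ j, ((fun i => x.1 ⟨j, i⟩), h j) ∈ (N j).W := Iff.rfl

/-- Substituting the networks `N j` for the elements of the host `H`. -/
def comp (hH : ∀ t : ZMod 2, ((0 : J → ZMod 2), t) ∈ H → t = 0) : Net where
  ι := Σ j, (N j).ι
  fin := inferInstance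
  W := compW H N
  nc := by
    rintro t ⟨h, h1, h2⟩
    have h0 : h = 0 := by
      funext j
      exact (N j).nc _ (h2 j)
    subst h0
    exact hH t h1

/-- the words of a network that is not determined -/
lemma exists_word {M : Net} {S : Finset M.ι} (h : ¬ SA M.W S) (hc : SC M.W S) :
    ∃ c : M.ι → ZMod 2, (c, 1) ∈ M.W ∧ (∀ i ∈ S, c i = 0) ∧ c ≠ 0 := by
  unfold SA at h
  push Not at h
  obtain ⟨x, hx, h1, h2⟩ := h
  have h3 : x.2 = 1 := by
    apply zmod2_ne_zero
    intro h0
    exact h2 (hc x hx h0 h1)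
  refine ⟨x.1, by rw [← h3]; exact hx, h1, ?_⟩
  intro h0
  have := M.nc x.2 (by rw [← h0]; exact hx)
  rw [this] at h3
  exact absurd h3 (by decide)

/-- set of indices whose network is determined -/
noncomputable def tset (f : ∀ j, Finset (N j).ι) : Finset J :=
  Finset.univ.filter (fun j => SA (N j).W (f j))

lemma comp_SC_of (f : ∀ j, Finset (N j).ι)
    (h : SC (compW H N) (Finset.univ.sigma f)) (j : J) : SC (N j).W (f j) := by
  intro x hx hx2 hx1
  let c : (Σ j, (N j).ι) → ZMod 2 := fun p => if hp : p.1 = j then x.1 (hp ▸ p.2) else 0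
  have hmem : ((c, (0 : ZMod 2)) : ((Σ j, (N j).ι) → ZMod 2) × ZMod 2) ∈ compW H N := by
    refine ⟨0, H.zero_mem, ?_⟩
    intro k
    by_cases hk : k = j
    · subst hk
      have : ((fun i => c ⟨k, i⟩), (0 : J → ZMod 2) k) = x := by
        ext
        · simp [c]
        · simp [hx2]
      rw [this]; exact hx
    · have : ((fun i => c ⟨k, i⟩), (0 : J → ZMod 2) k) = (0 : ((N k).ι → ZMod 2) × ZMod 2) := by
        ext
        · simp [c, hk]
        · simp
      rw [this]; exact (N k).W.zero_mem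
  have h0 := h _ hmem rfl (by
    rintro ⟨k, i⟩ hi
    simp only [Finset.mem_sigma, Finset.mem_univ, true_and] at hi
    by_cases hk : k = j
    · subst hk
      simpa [c] using hx1 i hi
    · simp [c, hk])
  have h1 : c = 0 := congrArg Prod.fst h0
  ext i
  · have := congrFun h1 ⟨j, i⟩
    simpa [c] using this
  · exact hx2

lemma comp_key (f : ∀ j, Finset (N j).ι) (hf : ∀ j, SC (N j).W (f j))
    (P : ZMod 2 → Prop) :
    (∀ x ∈ compW H N, P x.2 → (∀ i ∈ Finset.univ.sigma f, x.1 i = 0) → x = 0) ↔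
    (∀ y ∈ H, P y.2 → (∀ j ∈ tset N f, y.1 j = 0) → y = 0) := by
  constructor
  · intro h y hy hP hT
    have hw : ∀ j, ∃ c : (N j).ι → ZMod 2, (c, y.1 j) ∈ (N j).W ∧ (∀ i ∈ f j, c i = 0) ∧
        (c = 0 → y.1 j = 0) := by
      intro j
      by_cases hj : SA (N j).W (f j)
      · have : y.1 j = 0 := hT j (by simp [tset, hj])
        rw [this]
        exact ⟨0, (N j).W.zero_mem, fun _ _ => rfl, fun _ => rfl⟩
      · obtain ⟨c, hc1, hc2, hc3⟩ := exists_word hj (hf j)
        by_cases h0 : y.1 j = 0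
        · rw [h0]
          exact ⟨0, (N j).W.zero_mem, fun _ _ => rfl, fun _ => rfl⟩
        · rw [zmod2_ne_zero h0]
          exact ⟨c, hc1, hc2, fun h => absurd h hc3⟩
    choose c hc1 hc2 hc3 using hw
    have h0 := h ((fun p => c p.1 p.2), y.2) ⟨y.1, hy, fun j => hc1 j⟩ hP (by
      rintro ⟨j, i⟩ hi
      simp only [Finset.mem_sigma, Finset.mem_univ, true_and] at hi
      exact hc2 j i hi)
    have h1 : (fun p : (Σ j, (N j).ι) => c p.1 p.2) = 0 := congrArg Prod.fst h0
    have h2 : y.2 = 0 := congrArg Prod.snd h0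
    ext j
    · apply hc3 j
      funext i
      exact congrFun h1 ⟨j, i⟩
    · exact h2
  · rintro h x ⟨k, hk1, hk2⟩ hP hS
    have hk0 : (k, x.2) = 0 := by
      apply h _ hk1 hP
      intro j hj
      simp only [tset, Finset.mem_filter, Finset.mem_univ, true_and] at hj
      have := hj _ (hk2 j) (by
        intro i hi
        exact hS ⟨j, i⟩ (by simp [hi]))
      exact congrArg Prod.snd this
    have hk : k = 0 := congrArg Prod.fst hk0
    have hx2 : x.2 = 0 := congrArg Prod.snd hk0
    ext p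
    · obtain ⟨j, i⟩ := p
      have := hf j _ (hk2 j) (by rw [hk]; rfl) (by
        intro i hi
        exact hS ⟨j, i⟩ (by simp [hi]))
      have := congrArg Prod.fst this
      exact congrFun this i
    · exact hx2

lemma comp_SA_iff (f : ∀ j, Finset (N j).ι) :
    SA (compW H N) (Finset.univ.sigma f) ↔ (∀ j, SC (N j).W (f j)) ∧ SA H (tset N f) := by
  constructor
  · intro h
    have hf : ∀ j, SC (N j).W (f j) := comp_SC_of H N f h.SC
    refine ⟨hf, ?_⟩
    have := (comp_key H N f hf (fun _ => True)).1 (fun x hx _ h' => h x hx h')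
    exact fun y hy h' => this y hy trivial h'
  · rintro ⟨hf, h⟩
    have := (comp_key H N f hf (fun _ => True)).2 (fun x hx _ h' => h x hx h')
    exact fun y hy h' => this y hy trivial h'

lemma comp_SC_iff (f : ∀ j, Finset (N j).ι) :
    SC (compW H N) (Finset.univ.sigma f) ↔ (∀ j, SC (N j).W (f j)) ∧ SC H (tset N f) := by
  constructor
  · intro h
    have hf : ∀ j, SC (N j).W (f j) := comp_SC_of H N f h
    exact ⟨hf, (comp_key H N f hf (fun t => t = 0)).1 h⟩
  · rintro ⟨hf, h⟩
    exact (comp_key H N f hf (fun t => t = 0)).2 h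

/-- subsets of a sigma type -/
noncomputable def finsetSigmaEquiv {J : Type} [Fintype J] (κ : J → Type) [∀ j, Fintype (κ j)] :
    (∀ j, Finset (κ j)) ≃ Finset (Σ j, κ j) where
  toFun f := Finset.univ.sigma f
  invFun S := fun j => Finset.univ.filter (fun i => (⟨j, i⟩ : Σ j, κ j) ∈ S)
  left_inv := by
    intro f
    funext j
    ext i
    simp
  right_inv := by
    intro S
    ext ⟨j, i⟩
    simp

lemma comp_sum (Q : Finset J → Prop) (R : Finset (Σ j, (N j).ι) → Prop) (v : ℂ)
    (hR : ∀ f, R (Finset.univ.sigma f) ↔ (∀ j, SC (N j).W (f j)) ∧ Q (tset N f)) :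
    (∑ S : Finset (Σ j, (N j).ι), if R S then v ^ S.card else 0) =
    ∑ T : Finset J, if Q T then (∏ j, if j ∈ T then (N j).a v else (N j).b v) else 0 := by
  rw [← Equiv.sum_comp (finsetSigmaEquiv (fun j => (N j).ι))]
  have h1 : ∀ T : Finset J, (∏ j, if j ∈ T then (N j).a v else (N j).b v) =
      ∑ f : (∀ j, Finset (N j).ι), if (∀ j, SC (N j).W (f j)) ∧ tset N f = T then
        ∏ j, v ^ (f j).card else 0 := by
    intro T
    have h2 : ∀ j, (if j ∈ T then (N j).a v else (N j).b v) =
        ∑ s : Finset (N j).ι, if SC (N j).W s ∧ (SA (N j).W s ↔ j ∈ T) then v ^ s.card else 0 := by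
      intro j
      by_cases hj : j ∈ T
      · simp only [hj, if_true, Net.a, iff_true]
        apply Finset.sum_congr rfl
        intro s _
        by_cases hs : SA (N j).W s
        · simp [hs, hs.SC]
        · simp [hs]
      · simp only [hj, if_false, Net.b, iff_false]
    simp only [h2]
    rw [Finset.prod_univ_sum, Fintype.piFinset_univ]
    apply Finset.sum_congr rfl
    intro f _
    rw [Finset.prod_ite_zero]
    congr 1
    simp only [Finset.mem_univ, forall_true_left, eq_iff_iff]
    constructor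
    · intro h
      refine ⟨fun j => (h j).1, ?_⟩
      ext j
      simp [tset, (h j).2]
    · rintro ⟨h, rfl⟩ j
      refine ⟨h j, ?_⟩
      simp [tset]
  simp only [h1]
  have h3 : ∀ T : Finset J, (if Q T then (∑ f : (∀ j, Finset (N j).ι),
      if (∀ j, SC (N j).W (f j)) ∧ tset N f = T then ∏ j, v ^ (f j).card else 0) else 0) =
      ∑ f : (∀ j, Finset (N j).ι), if tset N f = T then
        (if (∀ j, SC (N j).W (f j)) ∧ Q (tset N f) then ∏ j, v ^ (f j).card else 0) else 0 := by
    intro T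
    by_cases hT : Q T
    · rw [if_pos hT]
      apply Finset.sum_congr rfl
      intro f _
      by_cases h : tset N f = T
      · simp [h, hT]
      · simp [h]
    · rw [if_neg hT]
      symm
      apply Finset.sum_eq_zero
      intro f _
      by_cases h : tset N f = T
      · simp [h, hT]
      · simp [h]
  simp only [h3]
  rw [Finset.sum_comm]
  apply Finset.sum_congr rfl
  intro f _
  rw [Finset.sum_ite_eq]
  simp only [Finset.mem_univ, if_true]
  have h4 : (finsetSigmaEquiv (fun j => (N j).ι)) f = Finset.univ.sigma f := rfl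
  rw [h4, Finset.card_sigma]
  simp only [hR, Finset.prod_pow_eq_pow_sum]

lemma comp_a (hH : ∀ t : ZMod 2, ((0 : J → ZMod 2), t) ∈ H → t = 0) (v : ℂ) :
    (comp H N hH).a v =
    ∑ T : Finset J, if SA H T then (∏ j, if j ∈ T then (N j).a v else (N j).b v) else 0 :=
  comp_sum N (SA H) (SA (compW H N)) v (comp_SA_iff H N)

lemma comp_c (hH : ∀ t : ZMod 2, ((0 : J → ZMod 2), t) ∈ H → t = 0) (v : ℂ) :
    (comp H N hH).c v =
    ∑ T : Finset J, if SC H T then (∏ j, if j ∈ T then (N j).a v else (N j).b v) else 0 :=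
  comp_sum N (SC H) (SC (compW H N)) v (comp_SC_iff H N)

end comp

end Pool.Agent.RelRoots
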