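import Mathlib
import Pool.Agent.RelRoots.Net

set_option autoImplicit false

namespace Pool.Agent.RelRoots

/-- single edge -/
def edge : Net where
  ι := Unit
  fin := inferInstance
  W :=
    { carrier := {x | x.1 () = x.2}
      add_mem' := by
        intro x y hx hy
        simp only [Set.mem_ofPred_eq] at *
        simp [hx, hy]
      zero_mem' := by simp
      smul_mem' := by
        intro r x hx
        simp only [Set.mem_ofPred_eq] at *
        simp [hx] }
  nc := by
    intro t ht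
    exact ht.symm

lemma edge_SA (S : Finset Unit) : SA edge.W S ↔ () ∈ S := by
  constructor
  · intro h
    by_contra hn
    have := h ((fun _ => 1), 1) rfl (by
      intro i hi
      exact absurd hi hn)
    have h2 : (1 : ZMod 2) = 0 := congrArg Prod.snd this
    exact absurd h2 (by decide)
  · rintro h ⟨x, t⟩ hx h1
    have h2 : x () = 0 := h1 () h
    have h3 : x () = t := hx
    ext i
    · exact h2
    · show t = 0
      rw [← h3, h2]

lemma edge_SC (S : Finset Unit) : SC edge.W S := by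
  rintro ⟨x, t⟩ hx h0 h1
  have h3 : x () = t := hx
  have h4 : t = 0 := h0
  ext i
  · show x () = 0
    rw [h3, h4]
  · exact h4

lemma univ_finset_unit : (Finset.univ : Finset (Finset Unit)) = {∅, {()}} := by decide

lemma sum_unit (f : Finset Unit → ℂ) : ∑ S : Finset Unit, f S = f ∅ + f {()} := by
  rw [univ_finset_unit, Finset.sum_pair (by decide)]

lemma edge_a (v : ℂ) : edge.a v = v := by
  have h : edge.a v = ∑ S : Finset Unit, if () ∈ S then v ^ S.card else 0 := by
    unfold Net.a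
    apply Finset.sum_congr rfl
    intro S _
    by_cases hS : () ∈ (show Finset Unit from S)
    · rw [if_pos ((edge_SA S).2 hS), if_pos hS]
      rfl
    · rw [if_neg (fun h => hS ((edge_SA S).1 h)), if_neg hS]
  rw [h, sum_unit]
  simp

lemma edge_c (v : ℂ) : edge.c v = 1 + v := by
  have h : edge.c v = ∑ S : Finset Unit, v ^ S.card := by
    unfold Net.c
    apply Finset.sum_congr rfl
    intro S _
    rw [if_pos (edge_SC S)]
    rfl
  rw [h, sum_unit]
  simp

lemma edge_b (v : ℂ) : edge.b v = 1 := by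
  have := edge.a_add_b v
  rw [edge_a, edge_c] at this
  linear_combination this

/-- host for series connection -/
def serH : Submodule (ZMod 2) ((Fin 2 → ZMod 2) × ZMod 2) where
  carrier := {x | x.1 0 + x.1 1 = x.2}
  add_mem' := by
    intro x y hx hy
    simp only [Set.mem_ofPred_eq] at *
    simp only [Prod.fst_add, Prod.snd_add, Pi.add_apply]
    rw [← hx, ← hy]; ring
  zero_mem' := by simp
  smul_mem' := by
    intro r x hx
    simp only [Set.mem_ofPred_eq] at *
    simp only [Prod.smul_fst, Prod.smul_snd, Pi.smul_apply, smul_eq_mul]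
    rw [← hx]; ring

/-- host for parallel connection -/
def parH : Submodule (ZMod 2) ((Fin 2 → ZMod 2) × ZMod 2) where
  carrier := {x | x.1 0 = x.2 ∧ x.1 1 = x.2}
  add_mem' := by
    intro x y hx hy
    simp only [Set.mem_ofPred_eq] at *
    simp [hx.1, hx.2, hy.1, hy.2]
  zero_mem' := by simp
  smul_mem' := by
    intro r x hx
    simp only [Set.mem_ofPred_eq] at *
    simp [hx.1, hx.2]

lemma serH_nc : ∀ t : ZMod 2, ((0 : Fin 2 → ZMod 2), t) ∈ serH → t = 0 := by
  intro t ht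
  have : (0 : ZMod 2) + 0 = t := ht
  simpa using this.symm

lemma parH_nc : ∀ t : ZMod 2, ((0 : Fin 2 → ZMod 2), t) ∈ parH → t = 0 := by
  intro t ht
  exact ht.1.symm

noncomputable def ser (N M : Net) : Net := comp serH ![N, M] serH_nc
noncomputable def par (N M : Net) : Net := comp parH ![N, M] parH_nc

lemma univ_finset_fin2 : (Finset.univ : Finset (Finset (Fin 2))) = {∅, {0}, {1}, {0, 1}} := by
  decide

lemma serH_SA (T : Finset (Fin 2)) : SA serH T ↔ (0 ∈ T ∧ 1 ∈ T) := by
  have h1 : SA serH T ↔ ∀ x : (Fin 2 → ZMod 2) × ZMod 2, x.1 0 + x.1 1 = x.2 →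
    (∀ i ∈ T, x.1 i = 0) → x = 0 := Iff.rfl
  rw [h1]
  clear h1
  revert T
  decide

lemma serH_SC (T : Finset (Fin 2)) : SC serH T ↔ (0 ∈ T ∨ 1 ∈ T) := by
  have h1 : SC serH T ↔ ∀ x : (Fin 2 → ZMod 2) × ZMod 2, x.1 0 + x.1 1 = x.2 → x.2 = 0 →
    (∀ i ∈ T, x.1 i = 0) → x = 0 := Iff.rfl
  rw [h1]
  clear h1
  revert T
  decide

lemma parH_SA (T : Finset (Fin 2)) : SA parH T ↔ (0 ∈ T ∨ 1 ∈ T) := by
  have h1 : SA parH T ↔ ∀ x : (Fin 2 → ZMod 2) × ZMod 2, (x.1 0 = x.2 ∧ x.1 1 = x.2) →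
    (∀ i ∈ T, x.1 i = 0) → x = 0 := Iff.rfl
  rw [h1]
  clear h1
  revert T
  decide

lemma parH_SC (T : Finset (Fin 2)) : SC parH T ↔ True := by
  have h1 : SC parH T ↔ ∀ x : (Fin 2 → ZMod 2) × ZMod 2, (x.1 0 = x.2 ∧ x.1 1 = x.2) → x.2 = 0 →
    (∀ i ∈ T, x.1 i = 0) → x = 0 := Iff.rfl
  rw [h1]
  clear h1
  revert T
  decide

lemma sum_fin2 (f : Finset (Fin 2) → ℂ) : ∑ T : Finset (Fin 2), f T =
    f ∅ + f {0} + f {1} + f {0, 1} := by
  rw [univ_finset_fin2, Finset.sum_insert (by decide), Finset.sum_insert (by decide),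
    Finset.sum_pair (by decide)]
  ring

lemma ser_a (N M : Net) (v : ℂ) : (ser N M).a v = N.a v * M.a v := by
  unfold ser
  rw [comp_a, sum_fin2]
  simp [serH_SA, Fin.prod_univ_two]

lemma ser_c (N M : Net) (v : ℂ) : (ser N M).c v =
    N.a v * M.a v + N.a v * M.b v + N.b v * M.a v := by
  unfold ser
  rw [comp_c, sum_fin2]
  simp [serH_SC, Fin.prod_univ_two]
  ring

lemma ser_b (N M : Net) (v : ℂ) : (ser N M).b v = N.a v * M.b v + N.b v * M.a v := by
  have := (ser N M).a_add_b v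
  rw [ser_a, ser_c] at this
  linear_combination this

lemma par_a (N M : Net) (v : ℂ) : (par N M).a v = N.c v * M.c v - N.b v * M.b v := by
  unfold par
  rw [comp_a, sum_fin2]
  simp [parH_SA, Fin.prod_univ_two]
  rw [← N.a_add_b, ← M.a_add_b]
  ring

lemma par_c (N M : Net) (v : ℂ) : (par N M).c v = N.c v * M.c v := by
  unfold par
  rw [comp_c, sum_fin2]
  simp [parH_SC, Fin.prod_univ_two]
  rw [← N.a_add_b, ← M.a_add_b]
  ring

lemma par_b (N M : Net) (v : ℂ) : (par N M).b v = N.b v * M.b v := by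
  have := (par N M).a_add_b v
  rw [par_a, par_c] at this
  linear_combination this

/-- the host `S_8` -/
def s8H : Submodule (ZMod 2) ((Fin 7 → ZMod 2) × ZMod 2) where
  carrier := {x | x.1 3 = x.1 1 + x.1 2 + x.2 ∧ x.1 4 = x.1 0 + x.1 2 + x.2 ∧
    x.1 5 = x.1 0 + x.1 1 + x.2 ∧ x.1 6 = x.1 0 + x.1 1 + x.1 2 + x.2}
  add_mem' := by
    rintro x y ⟨h1, h2, h3, h4⟩ ⟨k1, k2, k3, k4⟩
    simp only [Set.mem_ofPred_eq, Prod.fst_add, Prod.snd_add, Pi.add_apply]
    rw [h1, h2, h3, h4, k1, k2, k3, k4]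
    refine ⟨by ring, by ring, by ring, by ring⟩
  zero_mem' := by simp
  smul_mem' := by
    rintro r x ⟨h1, h2, h3, h4⟩
    simp only [Set.mem_ofPred_eq, Prod.smul_fst, Prod.smul_snd, Pi.smul_apply, smul_eq_mul]
    rw [h1, h2, h3, h4]
    refine ⟨by ring, by ring, by ring, by ring⟩

lemma s8H_nc : ∀ t : ZMod 2, ((0 : Fin 7 → ZMod 2), t) ∈ s8H → t = 0 := by
  rintro t ⟨h1, -⟩
  simpa using h1.symm

/-- the conditions on a word -/
def cd8 (T : Finset (Fin 7)) (p q r t : ZMod 2) : Bool :=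
  decide ((((0 : Fin 7) ∈ T → p = 0) ∧ ((1 : Fin 7) ∈ T → q = 0) ∧
    ((2 : Fin 7) ∈ T → r = 0) ∧ ((3 : Fin 7) ∈ T → q + r + t = 0)) ∧
    (((4 : Fin 7) ∈ T → p + r + t = 0) ∧ ((5 : Fin 7) ∈ T → p + q + t = 0) ∧
    ((6 : Fin 7) ∈ T → p + q + r + t = 0)))

/-- decidable version of `SA s8H`. -/
def sa8 (T : Finset (Fin 7)) : Bool :=
  decide (∀ p q r t : ZMod 2, cd8 T p q r t = true → (p = 0 ∧ q = 0 ∧ r = 0 ∧ t = 0))

/-- decidable version of `SC s8H`. -/
def sc8 (T : Finset (Fin 7)) : Bool :=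
  decide (∀ p q r : ZMod 2, cd8 T p q r 0 = true → (p = 0 ∧ q = 0 ∧ r = 0))

lemma s8H_SA (T : Finset (Fin 7)) : SA s8H T ↔ sa8 T = true := by
  unfold sa8
  rw [decide_eq_true_iff]
  constructor
  · intro h p q r t hcd
    unfold cd8 at hcd
    rw [decide_eq_true_iff] at hcd
    obtain ⟨⟨h0, h1, h2, h3⟩, h4, h5, h6⟩ := hcd
    have := h (![p, q, r, q + r + t, p + r + t, p + q + t, p + q + r + t], t)
      ⟨rfl, rfl, rfl, rfl⟩ (by
        intro i hi
        fin_cases i
        · exact h0 hi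
        · exact h1 hi
        · exact h2 hi
        · exact h3 hi
        · exact h4 hi
        · exact h5 hi
        · exact h6 hi)
    have e1 := congrArg Prod.fst this
    have e2 := congrArg Prod.snd this
    exact ⟨congrFun e1 0, congrFun e1 1, congrFun e1 2, e2⟩
  · rintro h ⟨x, t⟩ ⟨e1, e2, e3, e4⟩ hT
    simp only at e1 e2 e3 e4 hT
    obtain ⟨hp, hq, hr, ht⟩ := h (x 0) (x 1) (x 2) t (by
      unfold cd8
      rw [decide_eq_true_iff]
      exact ⟨⟨hT 0, hT 1, hT 2, fun h => by rw [← e1]; exact hT 3 h⟩,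
      fun h => by rw [← e2]; exact hT 4 h,
      fun h => by rw [← e3]; exact hT 5 h, fun h => by rw [← e4]; exact hT 6 h⟩)
    rw [hq, hr, ht] at e1
    rw [hp, hr, ht] at e2
    rw [hp, hq, ht] at e3
    rw [hp, hq, hr, ht] at e4
    ext i
    · fin_cases i
      · exact hp
      · exact hq
      · exact hr
      · simpa using e1
      · simpa using e2
      · simpa using e3
      · simpa using e4
    · exact ht

lemma s8H_SC (T : Finset (Fin 7)) : SC s8H T ↔ sc8 T = true := by
  unfold sc8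
  rw [decide_eq_true_iff]
  constructor
  · intro h p q r hcd
    unfold cd8 at hcd
    rw [decide_eq_true_iff] at hcd
    obtain ⟨⟨h0, h1, h2, h3⟩, h4, h5, h6⟩ := hcd
    have := h (![p, q, r, q + r + 0, p + r + 0, p + q + 0, p + q + r + 0], 0)
      ⟨rfl, rfl, rfl, rfl⟩ rfl (by
        intro i hi
        fin_cases i
        · exact h0 hi
        · exact h1 hi
        · exact h2 hi
        · exact h3 hi
        · exact h4 hi
        · exact h5 hi
        · exact h6 hi)
    have e1 := congrArg Prod.fst this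
    exact ⟨congrFun e1 0, congrFun e1 1, congrFun e1 2⟩
  · rintro h ⟨x, t⟩ ⟨e1, e2, e3, e4⟩ h0 hT
    simp only at e1 e2 e3 e4 hT h0
    subst h0
    obtain ⟨hp, hq, hr⟩ := h (x 0) (x 1) (x 2) (by
      unfold cd8
      rw [decide_eq_true_iff]
      exact ⟨⟨hT 0, hT 1, hT 2, fun h => by rw [← e1]; exact hT 3 h⟩,
      fun h => by rw [← e2]; exact hT 4 h,
      fun h => by rw [← e3]; exact hT 5 h, fun h => by rw [← e4]; exact hT 6 h⟩)
    rw [hq, hr] at e1
    rw [hp, hr] at e2
    rw [hp, hq] at e3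
    rw [hp, hq, hr] at e4
    ext i
    · fin_cases i
      · exact hp
      · exact hq
      · exact hr
      · simpa using e1
      · simpa using e2
      · simpa using e3
      · simpa using e4
    · rfl

/-- type of a subset of the host -/
def ty (T : Finset (Fin 7)) : Fin 8 × Bool :=
  (Fin.ofNat 8 (T.erase 6).card, decide ((6 : Fin 7) ∈ T))

def cntA (k : Fin 8) (s : Bool) : ℕ :=
  ((Finset.univ : Finset (Finset (Fin 7))).filter (fun T => sa8 T = true ∧ ty T = (k, s))).card

def cntC (k : Fin 8) (s : Bool) : ℕ :=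
  ((Finset.univ : Finset (Finset (Fin 7))).filter (fun T => sc8 T = true ∧ ty T = (k, s))).card

lemma cntA_eq : ∀ k s, cntA k s = (if s then ![0, 0, 0, 8, 12, 6, 1, 0] k else
    ![0, 0, 0, 0, 12, 6, 1, 0] k) := by
  decide +kernel

lemma cntC_eq : ∀ k s, cntC k s = (if s then ![0, 0, 12, 20, 15, 6, 1, 0] k else
    ![0, 0, 0, 16, 15, 6, 1, 0] k) := by
  decide +kernel

end Pool.Agent.RelRoots
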