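import Mathlib
import Pool.Agent.RelRoots.Hosts

set_option autoImplicit false

namespace Pool.Agent.RelRoots

noncomputable def s8 (N M : Net) : Net :=
  comp s8H (fun j : Fin 7 => if j = 6 then M else N) s8H_nc

noncomputable def GG (α β α' β' : ℂ) (p : Fin 8 × Bool) : ℂ :=
  α ^ (p.1 : ℕ) * β ^ (6 - (p.1 : ℕ)) * (if p.2 then α' else β')

lemma prod_type (α β α' β' : ℂ) (T : Finset (Fin 7)) :
    (∏ j : Fin 7, if j ∈ T then (if j = 6 then α' else α) else (if j = 6 then β' else β)) =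
    GG α β α' β' (ty T) := by
  rw [← Finset.prod_erase_mul Finset.univ _ (Finset.mem_univ (6 : Fin 7))]
  have h1 : (∏ j ∈ Finset.univ.erase (6 : Fin 7),
      if j ∈ T then (if j = 6 then α' else α) else (if j = 6 then β' else β)) =
      ∏ j ∈ Finset.univ.erase (6 : Fin 7), if j ∈ T then α else β := by
    apply Finset.prod_congr rfl
    intro j hj
    have : j ≠ 6 := Finset.ne_of_mem_erase hj
    simp [this]
  rw [h1, Finset.prod_ite, Finset.prod_const, Finset.prod_const]
  have h2 : (Finset.univ.erase (6 : Fin 7)).filter (fun j => j ∈ T) = T.erase 6 := by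
    ext j
    simp [Finset.mem_erase]
  have h3 : ((Finset.univ.erase (6 : Fin 7)).filter (fun j => j ∉ T)).card =
      6 - (T.erase 6).card := by
    have h4 := Finset.card_filter_add_card_filter_not (s := Finset.univ.erase (6 : Fin 7))
      (fun j => j ∈ T)
    rw [h2] at h4
    have h5 : (Finset.univ.erase (6 : Fin 7)).card = 6 := by decide
    omega
  rw [h2, h3]
  have h6 : (T.erase 6).card < 8 := by
    have : (T.erase 6).card ≤ (Finset.univ : Finset (Fin 7)).card :=
      Finset.card_le_card (Finset.subset_univ _)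
    simp at this
    omega
  unfold GG ty
  simp only [Fin.val_ofNat, Nat.mod_eq_of_lt h6]
  by_cases h : (6 : Fin 7) ∈ T <;> simp [h]

lemma s8_sum (R : Finset (Fin 7) → Bool) (cnt : Fin 8 → Bool → ℕ)
    (hcnt : ∀ k s, ((Finset.univ : Finset (Finset (Fin 7))).filter
      (fun T => R T = true ∧ ty T = (k, s))).card = cnt k s) (g : Fin 8 × Bool → ℂ) :
    (∑ T : Finset (Fin 7), if R T = true then g (ty T) else 0) =
    ∑ k : Fin 8, ((cnt k true : ℂ) * g (k, true) + (cnt k false : ℂ) * g (k, false)) := by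
  rw [← Finset.sum_filter]
  rw [← Finset.sum_fiberwise (Finset.univ.filter (fun T => R T = true)) ty]
  rw [Fintype.sum_prod_type]
  apply Finset.sum_congr rfl
  intro k _
  rw [Fintype.sum_bool]
  have key : ∀ s : Bool, (∑ i ∈ (Finset.univ.filter (fun T => R T = true)).filter
      (fun T => ty T = (k, s)), g (ty i)) = (cnt k s : ℂ) * g (k, s) := by
    intro s
    rw [Finset.sum_congr rfl (g := fun _ => g (k, s))]
    · rw [Finset.sum_const, Finset.filter_filter, hcnt, nsmul_eq_mul]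
    · intro T hT
      rw [(Finset.mem_filter.1 hT).2]
  rw [key, key]

lemma s8_pre (N M : Net) (v : ℂ) (T : Finset (Fin 7)) :
    (∏ j : Fin 7, if j ∈ T then ((fun j : Fin 7 => if j = 6 then M else N) j).a v
      else ((fun j : Fin 7 => if j = 6 then M else N) j).b v) =
    GG (N.a v) (N.b v) (M.a v) (M.b v) (ty T) := by
  rw [← prod_type]
  apply Finset.prod_congr rfl
  intro j _
  by_cases h : j = 6 <;> simp [h]

lemma s8_a (N M : Net) (v : ℂ) : (s8 N M).a v =
    M.b v * (12 * N.a v ^ 4 * N.b v ^ 2 + 6 * N.a v ^ 5 * N.b v + N.a v ^ 6) +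
    M.a v * (8 * N.a v ^ 3 * N.b v ^ 3 + 12 * N.a v ^ 4 * N.b v ^ 2 + 6 * N.a v ^ 5 * N.b v
      + N.a v ^ 6) := by
  unfold s8
  rw [comp_a]
  trans (∑ T : Finset (Fin 7),
      if sa8 T = true then GG (N.a v) (N.b v) (M.a v) (M.b v) (ty T) else 0)
  · apply Finset.sum_congr rfl
    intro T _
    rw [← s8_pre]
    by_cases h : sa8 T = true
    · rw [if_pos h, if_pos ((s8H_SA T).2 h)]
      apply Finset.prod_congr rfl
      intro j _
      by_cases hj : j ∈ T <;> simp [hj]
    · rw [if_neg h, if_neg (fun h' => h ((s8H_SA T).1 h'))]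
  rw [s8_sum sa8 cntA (fun k s => rfl)]
  simp only [cntA_eq, Fin.sum_univ_eight, GG]
  simp
  ring

lemma s8_c (N M : Net) (v : ℂ) : (s8 N M).c v =
    M.b v * (16 * N.a v ^ 3 * N.b v ^ 3 + 15 * N.a v ^ 4 * N.b v ^ 2 + 6 * N.a v ^ 5 * N.b v
      + N.a v ^ 6) +
    M.a v * (12 * N.a v ^ 2 * N.b v ^ 4 + 20 * N.a v ^ 3 * N.b v ^ 3 + 15 * N.a v ^ 4 * N.b v ^ 2
      + 6 * N.a v ^ 5 * N.b v + N.a v ^ 6) := by
  unfold s8
  rw [comp_c]
  trans (∑ T : Finset (Fin 7),
      if sc8 T = true then GG (N.a v) (N.b v) (M.a v) (M.b v) (ty T) else 0)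
  · apply Finset.sum_congr rfl
    intro T _
    rw [← s8_pre]
    by_cases h : sc8 T = true
    · rw [if_pos h, if_pos ((s8H_SC T).2 h)]
      apply Finset.prod_congr rfl
      intro j _
      by_cases hj : j ∈ T <;> simp [hj]
    · rw [if_neg h, if_neg (fun h' => h ((s8H_SC T).1 h'))]
  rw [s8_sum sc8 cntC (fun k s => rfl)]
  simp only [cntC_eq, Fin.sum_univ_eight, GG]
  simp
  ring

end Pool.Agent.RelRoots
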