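import Mathlib
import Pool.Agent.RelRoots.S8

set_option autoImplicit false

namespace Pool.Agent.RelRoots

open Classical in
/-- The boundedness hypothesis. -/
def Bdd (C : ℝ) : Prop :=
  ∀ (n : ℕ) (M : Matroid (Fin n)), M.E = Set.univ →
      ∀ z : ℂ,
        (∑ S : Finset (Fin n),
          (if M.Spanning (↑S : Set (Fin n)) then
            z ^ (Finset.card S) * (1 - z) ^ (n - Finset.card S) else 0)) = 0 →
        ‖z‖ ≤ C

/-- code obtained by forgetting the distinguished coordinate -/
def fstCode (N : Net) {n : ℕ} (e : N.ι ≃ Fin n) : Submodule (ZMod 2) (Fin n → ZMod 2) where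
  carrier := {c | ∃ x ∈ N.W, ∀ i, c (e i) = x.1 i}
  add_mem' := by
    rintro c d ⟨x, hx, h1⟩ ⟨y, hy, h2⟩
    exact ⟨x + y, N.W.add_mem hx hy, fun i => by simp [h1, h2]⟩
  zero_mem' := ⟨0, N.W.zero_mem, fun i => rfl⟩
  smul_mem' := by
    rintro r c ⟨x, hx, h1⟩
    exact ⟨r • x, N.W.smul_mem r hx, fun i => by simp [h1]⟩

lemma fstCode_Sp (N : Net) {n : ℕ} (e : N.ι ≃ Fin n) (S : Finset N.ι) :
    Sp (fstCode N e) (S.map e.toEmbedding) ↔ SA N.W S := by
  constructor
  · intro h x hx hS
    have h0 := h (fun j => x.1 (e.symm j)) ⟨x, hx, fun i => by simp⟩ (by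
      intro j hj
      obtain ⟨i, hi, rfl⟩ := Finset.mem_map.1 hj
      simpa using hS i hi)
    have h1 : x.1 = 0 := by
      funext i
      have := congrFun h0 (e i)
      simpa using this
    have h2 : x = (0, x.2) := by rw [← h1]
    rw [h2] at hx
    rw [h2, N.nc _ hx]
    rfl
  · rintro h c ⟨x, hx, h1⟩ hS
    have h0 := h x hx (by
      intro i hi
      rw [← h1]
      exact hS (e i) (Finset.mem_map.2 ⟨i, hi, rfl⟩))
    funext j
    have := h1 (e.symm j)
    rw [h0] at this
    simpa using this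

lemma nonvanish {C : ℝ} (hC : Bdd C) (N : Net) (y : ℂ) (hy0 : y ≠ 0)
    (hy : ‖y‖ < 1 / (|C| + 1)) : N.a (y - 1) ≠ 0 := by
  intro ha
  let n := Fintype.card N.ι
  let e : N.ι ≃ Fin n := Fintype.equivFin N.ι
  have hsum := hC n (codeMatroid n (fstCode N e)) (codeMatroid_E _ _) (1 - 1 / y) (by
    rw [← Equiv.sum_comp (Equiv.finsetCongr e)]
    have h1 : ∀ S : Finset N.ι, S ∈ Finset.univ → (@ite ℂ
        ((codeMatroid n (fstCode N e)).Spanning (((Equiv.finsetCongr e) S : Finset (Fin n)) :
          Set (Fin n))) (Classical.propDecidable _)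
        ((1 - 1 / y) ^ (Finset.card ((Equiv.finsetCongr e) S)) *
          (1 - (1 - 1 / y)) ^ (n - Finset.card ((Equiv.finsetCongr e) S))) 0) =
        (1 / y) ^ n * (@ite ℂ (SA N.W S) (Classical.propDecidable _) ((y - 1) ^ S.card) 0) := by
      intro S _
      rw [Equiv.finsetCongr_apply]
      have h2 : (codeMatroid n (fstCode N e)).Spanning (((S.map e.toEmbedding) : Finset (Fin n)) :
          Set (Fin n)) ↔ SA N.W S := by
        rw [codeMatroid_spanning, fstCode_Sp]
      by_cases h : SA N.W S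
      · rw [if_pos (h2.2 h), if_pos h, Finset.card_map]
        have h3 : S.card ≤ n := Finset.card_le_univ S
        have h4 : (1 - 1 / y) = (y - 1) * (1 / y) := by field_simp
        have h5 : (1 - (1 - 1 / y)) = 1 / y := by ring
        rw [h5, h4, mul_pow]
        rw [mul_assoc, ← pow_add, Nat.add_sub_cancel' h3, mul_comm]
      · rw [if_neg (fun h' => h (h2.1 h')), if_neg h, mul_zero]
    rw [Finset.sum_congr rfl h1, ← Finset.mul_sum]
    unfold Net.a at ha
    rw [ha, mul_zero])
  have hpos : 0 < ‖y‖ := norm_pos_iff.2 hy0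
  have h6 : ‖(1 : ℂ) / y‖ - 1 ≤ ‖(1 : ℂ) - 1 / y‖ := by
    have := norm_sub_norm_le (1 / y) (1 : ℂ)
    rw [norm_one, norm_sub_rev] at this
    exact this
  have h7 : |C| + 1 < ‖(1 : ℂ) / y‖ := by
    rw [norm_div, norm_one]
    rw [lt_div_iff₀ hpos]
    rw [lt_div_iff₀ (by positivity)] at hy
    linarith
  have h8 : C ≤ |C| := le_abs_self C
  linarith

/-- iterated parallel composition -/
noncomputable def parN (N : Net) : ℕ → Net
  | 0 => N
  | k + 1 => par (parN N k) N

lemma parN_c (N : Net) (v : ℂ) (k : ℕ) : (parN N k).c v = N.c v ^ (k + 1) := by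
  induction k with
  | zero => simp [parN]
  | succ k ih => rw [parN, par_c, ih]; ring

lemma parN_b (N : Net) (v : ℂ) (k : ℕ) : (parN N k).b v = N.b v ^ (k + 1) := by
  induction k with
  | zero => simp [parN]
  | succ k ih => rw [parN, par_b, ih]; ring

lemma parN_a (N : Net) (v : ℂ) (k : ℕ) : (parN N k).a v = N.c v ^ (k + 1) - N.b v ^ (k + 1) := by
  have := (parN N k).a_add_b v
  rw [parN_b, parN_c] at this
  linear_combination this

lemma pow_ne {C : ℝ} (hC : Bdd C) (N : Net) (y : ℂ) (hy0 : y ≠ 0)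
    (hy : ‖y‖ < 1 / (|C| + 1)) (n : ℕ) (hn : 0 < n) : N.c (y - 1) ^ n ≠ N.b (y - 1) ^ n := by
  intro h
  obtain ⟨k, rfl⟩ : ∃ k, n = k + 1 := ⟨n - 1, by omega⟩
  apply nonvanish hC (parN N k) y hy0 hy
  rw [parN_a, h, sub_self]

lemma Net.differentiable_a (N : Net) : Differentiable ℂ N.a := by
  unfold Net.a
  apply Differentiable.fun_sum
  intro S _
  by_cases h : SA N.W S
  · simp only [h, if_true]; exact differentiable_pow _
  · simp only [h, if_false]; exact differentiable_const _

lemma Net.differentiable_b (N : Net) : Differentiable ℂ N.b := by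
  unfold Net.b
  apply Differentiable.fun_sum
  intro S _
  by_cases h : SC N.W S ∧ ¬ SA N.W S
  · simp only [h, if_true]; simp
  · simp only [h, if_false]; exact differentiable_const _

lemma Net.differentiable_c (N : Net) : Differentiable ℂ N.c := by
  have : N.c = fun v => N.a v + N.b v := by
    funext v; exact (N.a_add_b v).symm
  rw [this]
  exact N.differentiable_a.add N.differentiable_b

end Pool.Agent.RelRoots
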