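import Mathlib
import Pool.Agent.RelRoots.Nonvanish
import Pool.Agent.RelRoots.Analytic

set_option autoImplicit false

namespace Pool.Agent.RelRoots

/-- the effective function of a network, in the variable `y = 1 + v` -/
noncomputable def Net.w (N : Net) (y : ℂ) : ℂ := - N.b (y - 1) / N.a (y - 1)

/-- The network `N` has effective value `W` and derivative `D` at `y = 0`. -/
def Good (N : Net) (W : ℝ) (D : ℂ) : Prop :=
  N.a (-1) ≠ 0 ∧ N.w 0 = W ∧ HasDerivAt N.w D 0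

lemma Good.bound {C : ℝ} (hC : Bdd C) {N : Net} {W : ℝ} {D : ℂ} (h : Good N W D)
    (hW : 1 / 2 < W) : ‖D‖ ≤ (2 * W - 1) * (|C| + 1) := by
  obtain ⟨ha, hw, hd⟩ := h
  have hε : (0 : ℝ) < 1 / (|C| + 1) := by positivity
  have hb0 : N.b (-1) = - (W : ℂ) * N.a (-1) := by
    unfold Net.w at hw
    rw [zero_sub] at hw
    rw [← hw]
    field_simp
  have hc0 : N.c (-1) = (1 - (W : ℂ)) * N.a (-1) := by
    rw [← N.a_add_b, hb0]; ring
  have hlt0 : ‖N.c (0 - 1)‖ < ‖N.b (0 - 1)‖ := by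
    rw [zero_sub, hb0, hc0, norm_mul, norm_mul]
    apply mul_lt_mul_of_pos_right _ (norm_pos_iff.2 ha)
    have h1 : ‖(1 : ℂ) - (W : ℂ)‖ = |1 - W| := by
      rw [← Complex.ofReal_one, ← Complex.ofReal_sub, Complex.norm_real, Real.norm_eq_abs]
    have h2 : ‖-(W : ℂ)‖ = |W| := by
      rw [norm_neg, Complex.norm_real, Real.norm_eq_abs]
    rw [h1, h2, abs_of_pos (show 0 < W by linarith), abs_lt]
    constructor <;> linarith
  have hlt := key (fun y => N.c (y - 1)) (fun y => N.b (y - 1))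
    (N.differentiable_c.comp (differentiable_id.sub_const 1))
    (N.differentiable_b.comp (differentiable_id.sub_const 1)) (1 / (|C| + 1)) hlt0
    (fun y hy0 hy n hn => pow_ne hC N y hy0 hy n hn)
  have hane : ∀ y : ℂ, ‖y‖ < 1 / (|C| + 1) → N.a (y - 1) ≠ 0 := by
    intro y hy h0
    have h1 := hlt y hy
    rw [← N.a_add_b, h0, zero_add] at h1
    exact lt_irrefl _ h1
  have hwd : DifferentiableOn ℂ N.w (Metric.ball 0 (1 / (|C| + 1))) := by
    intro y hy
    rw [mem_ball_zero_iff] at hy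
    apply DifferentiableAt.differentiableWithinAt
    unfold Net.w
    apply DifferentiableAt.fun_div
    · exact ((N.differentiable_b.comp (differentiable_id.sub_const 1)) y).neg
    · exact (N.differentiable_a.comp (differentiable_id.sub_const 1)) y
    · exact hane y hy
  have hre : ∀ y ∈ Metric.ball (0 : ℂ) (1 / (|C| + 1)), 1 / 2 < (N.w y).re := by
    intro y hy
    rw [mem_ball_zero_iff] at hy
    have h1 := hlt y hy
    have h2 := hane y hy
    have h3 : N.b (y - 1) = - N.w y * N.a (y - 1) := by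
      unfold Net.w; field_simp
    have h4 : N.c (y - 1) = (1 - N.w y) * N.a (y - 1) := by
      rw [← N.a_add_b, h3]; ring
    rw [h3, h4, norm_mul, norm_mul] at h1
    have h5 := lt_of_mul_lt_mul_right h1 (norm_nonneg _)
    rw [norm_neg] at h5
    have h6 : ‖(1 : ℂ) - N.w y‖ ^ 2 < ‖N.w y‖ ^ 2 := by
      apply pow_lt_pow_left₀ h5 (norm_nonneg _) two_ne_zero
    rw [← Complex.normSq_eq_norm_sq, ← Complex.normSq_eq_norm_sq, Complex.normSq_apply,
      Complex.normSq_apply] at h6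
    simp at h6
    nlinarith
  have hmain := deriv_bound N.w (1 / (|C| + 1)) W hε hwd hre hw
  rw [hd.deriv] at hmain
  calc ‖D‖ ≤ _ := hmain
    _ = (2 * W - 1) * (|C| + 1) := by
      rw [div_div_eq_mul_div, div_one]

lemma Net.eventually_a_ne {N : Net} (h : N.a (-1) ≠ 0) :
    ∀ᶠ y in nhds (0 : ℂ), N.a (y - 1) ≠ 0 := by
  have hcont : Continuous (fun y : ℂ => N.a (y - 1)) :=
    N.differentiable_a.continuous.comp (continuous_id.sub continuous_const)
  apply hcont.continuousAt.eventually_ne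
  simpa using h

/-- General composition principle. -/
lemma Good.compose {N M P : Net} {W1 W2 W : ℝ} {D1 D2 Dn Dd : ℂ}
    (h1 : Good N W1 D1) (h2 : Good M W2 D2)
    (num den : ℂ → ℂ → ℂ) (K : ℂ → ℂ → ℂ)
    (hK : ∀ x y, x ≠ 0 → y ≠ 0 → K x y ≠ 0)
    (hPa : ∀ v, N.a v ≠ 0 → M.a v ≠ 0 → P.a v =
      K (N.a v) (M.a v) * den (- N.b v / N.a v) (- M.b v / M.a v))
    (hPb : ∀ v, N.a v ≠ 0 → M.a v ≠ 0 → P.b v =
      - K (N.a v) (M.a v) * num (- N.b v / N.a v) (- M.b v / M.a v))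
    (hden0 : den W1 W2 ≠ 0) (hW : num W1 W2 / den W1 W2 = W)
    (hn : HasDerivAt (fun y => num (N.w y) (M.w y)) Dn 0)
    (hd : HasDerivAt (fun y => den (N.w y) (M.w y)) Dd 0) :
    Good P W ((Dn * den W1 W2 - num W1 W2 * Dd) / (den W1 W2) ^ 2) := by
  obtain ⟨ha1, hw1, hd1⟩ := h1
  obtain ⟨ha2, hw2, hd2⟩ := h2
  have e1 := Net.eventually_a_ne ha1
  have e2 := Net.eventually_a_ne ha2
  have hw1' : - N.b (-1) / N.a (-1) = W1 := by
    have := hw1; unfold Net.w at this; rwa [zero_sub] at this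
  have hw2' : - M.b (-1) / M.a (-1) = W2 := by
    have := hw2; unfold Net.w at this; rwa [zero_sub] at this
  have hP : P.a (-1) ≠ 0 := by
    rw [hPa _ ha1 ha2, hw1', hw2']
    exact mul_ne_zero (hK _ _ ha1 ha2) hden0
  have heq : ∀ y, N.a (y - 1) ≠ 0 → M.a (y - 1) ≠ 0 →
      P.w y = num (N.w y) (M.w y) / den (N.w y) (M.w y) := by
    intro y hy1 hy2
    unfold Net.w
    rw [hPa _ hy1 hy2, hPb _ hy1 hy2]
    have := hK _ _ hy1 hy2
    rw [neg_mul, neg_neg, mul_div_mul_left _ _ this]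
  refine ⟨hP, ?_, ?_⟩
  · rw [heq 0 (by simpa using ha1) (by simpa using ha2), hw1, hw2]
    exact hW
  · have h3 : HasDerivAt (fun y => num (N.w y) (M.w y) / den (N.w y) (M.w y))
        ((Dn * den W1 W2 - num W1 W2 * Dd) / (den W1 W2) ^ 2) 0 := by
      have := hn.fun_div hd (by rw [hw1, hw2]; exact hden0)
      rw [hw1, hw2] at this
      exact this
    apply h3.congr_of_eventuallyEq
    filter_upwards [e1, e2] with y hy1 hy2
    exact heq y hy1 hy2

lemma good_edge : Good edge 1 1 := by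
  refine ⟨by rw [edge_a]; norm_num, ?_, ?_⟩
  · unfold Net.w; rw [edge_a, edge_b]; norm_num
  · have h : edge.w = fun y => (-1 : ℂ) / (y - 1) := by
      funext y; unfold Net.w; rw [edge_a, edge_b]
    rw [h]
    have := (hasDerivAt_const (0 : ℂ) (-1 : ℂ)).fun_div ((hasDerivAt_id (0 : ℂ)).sub_const 1)
      (by norm_num)
    refine this.congr_deriv ?_
    norm_num

lemma good_ser {N M : Net} {W1 W2 : ℝ} {D1 D2 : ℂ}
    (h1 : Good N W1 D1) (h2 : Good M W2 D2) : Good (ser N M) (W1 + W2) (D1 + D2) := by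
  have h := h1.compose h2 (P := ser N M) (W := W1 + W2) (fun x y => x + y) (fun _ _ => 1)
    (fun x y => x * y) (fun x y hx hy => mul_ne_zero hx hy)
    (by intro v _ _; rw [ser_a, mul_one])
    (by intro v h1 h2; rw [ser_b]; field_simp; ring)
    one_ne_zero (by push_cast; ring) (h1.2.2.fun_add h2.2.2) (hasDerivAt_const _ _)
  convert h using 1
  ring

lemma good_par {N M : Net} {W1 W2 : ℝ} {D1 D2 : ℂ}
    (h1 : Good N W1 D1) (h2 : Good M W2 D2) (hne : W1 + W2 - 1 ≠ 0) :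
    Good (par N M) (W1 * W2 / (W1 + W2 - 1))
      (((D1 * W2 + W1 * D2) * (W1 + W2 - 1) - W1 * W2 * (D1 + D2)) / (W1 + W2 - 1) ^ 2) := by
  have hne' : (W1 : ℂ) + W2 - 1 ≠ 0 := by exact_mod_cast hne
  have hd1 := h1.2.2.fun_mul h2.2.2
  rw [h1.2.1, h2.2.1] at hd1
  have h := h1.compose h2 (P := par N M) (W := W1 * W2 / (W1 + W2 - 1))
    (fun x y => x * y) (fun x y => x + y - 1)
    (fun x y => - (x * y)) (fun x y hx hy => neg_ne_zero.2 (mul_ne_zero hx hy))
    (by intro v h1 h2; rw [par_a, ← N.a_add_b, ← M.a_add_b]; field_simp; ring)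
    (by intro v h1 h2; rw [par_b]; field_simp)
    hne' (by push_cast; ring) hd1
    ((h1.2.2.fun_add h2.2.2).sub_const 1)
  exact h

/-- numerator and denominator of the `S_8` gadget -/
noncomputable def num8 (x y : ℂ) : ℂ := x ^ 2 * (y * (16 * x - 3) + 3 * (2 * x - 1) ^ 2)
noncomputable def den8 (x y : ℂ) : ℂ := y * (12 * x ^ 2 - 6 * x + 1) + (2 * x - 1) ^ 3

lemma s8_a' (N M : Net) (v : ℂ) (h1 : N.a v ≠ 0) (h2 : M.a v ≠ 0) : (s8 N M).a v =
    - (N.a v ^ 6 * M.a v) * den8 (- N.b v / N.a v) (- M.b v / M.a v) := by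
  rw [s8_a]
  unfold den8
  field_simp
  ring

lemma s8_b' (N M : Net) (v : ℂ) (h1 : N.a v ≠ 0) (h2 : M.a v ≠ 0) : (s8 N M).b v =
    - (- (N.a v ^ 6 * M.a v)) * num8 (- N.b v / N.a v) (- M.b v / M.a v) := by
  have h := (s8 N M).a_add_b v
  have h3 : (s8 N M).b v = (s8 N M).c v - (s8 N M).a v := by linear_combination h
  rw [h3, s8_c, s8_a]
  unfold num8
  field_simp
  ring

lemma good_s8 {N M : Net} {W : ℝ} {D1 D2 : ℂ} (hW : 20 ≤ W)
    (h1 : Good N W D1) (h2 : Good M W D2) :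
    Good (s8 N M) (W ^ 2 * (28 * W ^ 2 - 15 * W + 3) / (20 * W ^ 3 - 18 * W ^ 2 + 7 * W - 1))
      ((((96 * W ^ 3 - 42 * W ^ 2 + 6 * W) * D1 + (16 * W ^ 3 - 3 * W ^ 2) * D2) *
          (20 * W ^ 3 - 18 * W ^ 2 + 7 * W - 1)
        - (W ^ 2 * (28 * W ^ 2 - 15 * W + 3)) *
          ((48 * W ^ 2 - 30 * W + 6) * D1 + (12 * W ^ 2 - 6 * W + 1) * D2)) /
        (20 * W ^ 3 - 18 * W ^ 2 + 7 * W - 1) ^ 2) := by
  have hden : (20 * W ^ 3 - 18 * W ^ 2 + 7 * W - 1 : ℝ) ≠ 0 := by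
    apply ne_of_gt
    nlinarith [mul_pos (show (0 : ℝ) < W by linarith) (show (0 : ℝ) < W by linarith)]
  have e1 : den8 (W : ℂ) (W : ℂ) = 20 * W ^ 3 - 18 * W ^ 2 + 7 * W - 1 := by
    unfold den8; ring
  have e2 : num8 (W : ℂ) (W : ℂ) = W ^ 2 * (28 * W ^ 2 - 15 * W + 3) := by
    unfold num8; ring
  have hden' : den8 (W : ℂ) (W : ℂ) ≠ 0 := by
    rw [e1]; exact_mod_cast hden
  have hw1 := h1.2.1
  have hd1 := h1.2.2
  have hw2 := h2.2.1
  have hd2 := h2.2.2
  have hn : HasDerivAt (fun y => num8 (N.w y) (M.w y))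
      ((96 * W ^ 3 - 42 * W ^ 2 + 6 * W) * D1 + (16 * W ^ 3 - 3 * W ^ 2) * D2) 0 := by
    unfold num8
    have := (hd1.fun_pow 2).fun_mul ((hd2.fun_mul ((hd1.const_mul 16).sub_const 3)).fun_add
      ((((hd1.const_mul 2).sub_const 1).fun_pow 2).const_mul 3))
    refine this.congr_deriv ?_
    rw [hw1, hw2]
    push_cast
    ring
  have hd : HasDerivAt (fun y => den8 (N.w y) (M.w y))
      ((48 * W ^ 2 - 30 * W + 6) * D1 + (12 * W ^ 2 - 6 * W + 1) * D2) 0 := by
    unfold den8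
    have := (hd2.fun_mul ((((hd1.fun_pow 2).const_mul 12).fun_sub (hd1.const_mul 6)).add_const 1)).fun_add
      (((hd1.const_mul 2).sub_const 1).fun_pow 3)
    refine this.congr_deriv ?_
    rw [hw1, hw2]
    push_cast
    ring
  have h := Good.compose (N := N) (M := M) (P := s8 N M) h1 h2
    (W := W ^ 2 * (28 * W ^ 2 - 15 * W + 3) / (20 * W ^ 3 - 18 * W ^ 2 + 7 * W - 1)) num8 den8
    (fun x y => - (x ^ 6 * y))
    (fun x y hx hy => neg_ne_zero.2 (mul_ne_zero (pow_ne_zero _ hx) hy))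
    (fun v h1 h2 => s8_a' N M v h1 h2) (fun v h1 h2 => s8_b' N M v h1 h2) hden'
    (by rw [e1, e2]; push_cast; ring) hn hd
  rw [e1, e2] at h
  exact h

end Pool.Agent.RelRoots
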