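import Mathlib
import Pool.Agent.RelRoots.Good

set_option autoImplicit false
open Classical
open Pool.Agent.RelRoots

namespace Pool.Agent.RelRootsBin

/-- boundedness of the roots for binary codes -/
def BddW (C : ℝ) : Prop :=
  ∀ (n : ℕ) (W : Submodule (ZMod 2) (Fin n → ZMod 2)) (z : ℂ),
    (∑ S : Finset (Fin n), (if Sp W S then z ^ S.card * (1 - z) ^ (n - S.card) else 0)) = 0 →
      ‖z‖ ≤ C

lemma nonvanish {C : ℝ} (hC : BddW C) (N : Net) (y : ℂ) (hy0 : y ≠ 0)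
    (hy : ‖y‖ < 1 / (|C| + 1)) : N.a (y - 1) ≠ 0 := by
  intro ha
  let n := Fintype.card N.ι
  let e : N.ι ≃ Fin n := Fintype.equivFin N.ι
  have hsum := hC n (fstCode N e) (1 - 1 / y) (by
    rw [← Equiv.sum_comp (Equiv.finsetCongr e)]
    have h1 : ∀ S : Finset N.ι, S ∈ Finset.univ → (@ite ℂ
        (Sp (fstCode N e) ((Equiv.finsetCongr e) S)) (Classical.propDecidable _)
        ((1 - 1 / y) ^ (Finset.card ((Equiv.finsetCongr e) S)) *
          (1 - (1 - 1 / y)) ^ (n - Finset.card ((Equiv.finsetCongr e) S))) 0) =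
        (1 / y) ^ n * (@ite ℂ (SA N.W S) (Classical.propDecidable _) ((y - 1) ^ S.card) 0) := by
      intro S _
      rw [Equiv.finsetCongr_apply]
      by_cases h : SA N.W S
      · rw [if_pos ((fstCode_Sp N e S).2 h), if_pos h, Finset.card_map]
        have h3 : S.card ≤ n := Finset.card_le_univ S
        have h4 : (1 - 1 / y) = (y - 1) * (1 / y) := by field_simp
        have h5 : (1 - (1 - 1 / y)) = 1 / y := by ring
        rw [h5, h4, mul_pow]
        rw [mul_assoc, ← pow_add, Nat.add_sub_cancel' h3, mul_comm]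
      · rw [if_neg (fun h' => h ((fstCode_Sp N e S).1 h')), if_neg h, mul_zero]
    rw [Finset.sum_congr rfl h1, ← Finset.mul_sum]
    unfold Net.a at ha
    rw [ha, mul_zero])
  have hpos : 0 < ‖y‖ := norm_pos_iff.2 hy0
  have h6 : ‖(1 : ℂ) / y‖ - 1 ≤ ‖(1 : ℂ) - 1 / y‖ := by
    have := norm_sub_norm_le (1 / y) (1 : ℂ)
    rw [norm_one, norm_sub_rev] at this
    exact this
  have h7 : |C| + 1 < ‖(1 : ℂ) / y‖ := by
    rw [norm_div, norm_one]
    rw [lt_div_iff₀ hpos]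
    rw [lt_div_iff₀ (by positivity)] at hy
    linarith
  have h8 : C ≤ |C| := le_abs_self C
  linarith

lemma pow_ne {C : ℝ} (hC : BddW C) (N : Net) (y : ℂ) (hy0 : y ≠ 0)
    (hy : ‖y‖ < 1 / (|C| + 1)) (n : ℕ) (hn : 0 < n) : N.c (y - 1) ^ n ≠ N.b (y - 1) ^ n := by
  intro h
  obtain ⟨k, rfl⟩ : ∃ k, n = k + 1 := ⟨n - 1, by omega⟩
  apply nonvanish hC (parN N k) y hy0 hy
  rw [parN_a, h, sub_self]

lemma good_bound {C : ℝ} (hC : BddW C) {N : Net} {W : ℝ} {D : ℂ} (h : Good N W D)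
    (hW : 1 / 2 < W) : ‖D‖ ≤ (2 * W - 1) * (|C| + 1) := by
  obtain ⟨ha, hw, hd⟩ := h
  have hε : (0 : ℝ) < 1 / (|C| + 1) := by positivity
  have hb0 : N.b (-1) = - (W : ℂ) * N.a (-1) := by
    unfold Net.w at hw
    rw [zero_sub] at hw
    rw [← hw]
    field_simp
  have hc0 : N.c (-1) = (1 - (W : ℂ)) * N.a (-1) := by
    rw [← N.a_add_b, hb0]; ring
  have hlt0 : ‖N.c (0 - 1)‖ < ‖N.b (0 - 1)‖ := by
    rw [zero_sub, hb0, hc0, norm_mul, norm_mul]
    apply mul_lt_mul_of_pos_right _ (norm_pos_iff.2 ha)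
    have h1 : ‖(1 : ℂ) - (W : ℂ)‖ = |1 - W| := by
      rw [← Complex.ofReal_one, ← Complex.ofReal_sub, Complex.norm_real, Real.norm_eq_abs]
    have h2 : ‖-(W : ℂ)‖ = |W| := by
      rw [norm_neg, Complex.norm_real, Real.norm_eq_abs]
    rw [h1, h2, abs_of_pos (show 0 < W by linarith), abs_lt]
    constructor <;> linarith
  have hlt := key (fun y => N.c (y - 1)) (fun y => N.b (y - 1))
    (N.differentiable_c.comp (differentiable_id.sub_const 1))
    (N.differentiable_b.comp (differentiable_id.sub_const 1)) (1 / (|C| + 1)) hlt0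
    (fun y hy0 hy n hn => pow_ne hC N y hy0 hy n hn)
  have hane : ∀ y : ℂ, ‖y‖ < 1 / (|C| + 1) → N.a (y - 1) ≠ 0 := by
    intro y hy h0
    have h1 := hlt y hy
    rw [← N.a_add_b, h0, zero_add] at h1
    exact lt_irrefl _ h1
  have hwd : DifferentiableOn ℂ N.w (Metric.ball 0 (1 / (|C| + 1))) := by
    intro y hy
    rw [mem_ball_zero_iff] at hy
    apply DifferentiableAt.differentiableWithinAt
    unfold Net.w
    apply DifferentiableAt.fun_div
    · exact ((N.differentiable_b.comp (differentiable_id.sub_const 1)) y).neg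
    · exact (N.differentiable_a.comp (differentiable_id.sub_const 1)) y
    · exact hane y hy
  have hre : ∀ y ∈ Metric.ball (0 : ℂ) (1 / (|C| + 1)), 1 / 2 < (N.w y).re := by
    intro y hy
    rw [mem_ball_zero_iff] at hy
    have h1 := hlt y hy
    have h2 := hane y hy
    have h3 : N.b (y - 1) = - N.w y * N.a (y - 1) := by
      unfold Net.w; field_simp
    have h4 : N.c (y - 1) = (1 - N.w y) * N.a (y - 1) := by
      rw [← N.a_add_b, h3]; ring
    rw [h3, h4, norm_mul, norm_mul] at h1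
    have h5 := lt_of_mul_lt_mul_right h1 (norm_nonneg _)
    rw [norm_neg] at h5
    have h6 : ‖(1 : ℂ) - N.w y‖ ^ 2 < ‖N.w y‖ ^ 2 := by
      apply pow_lt_pow_left₀ h5 (norm_nonneg _) two_ne_zero
    rw [← Complex.normSq_eq_norm_sq, ← Complex.normSq_eq_norm_sq, Complex.normSq_apply,
      Complex.normSq_apply] at h6
    simp at h6
    nlinarith
  have hmain := deriv_bound N.w (1 / (|C| + 1)) W hε hwd hre hw
  rw [hd.deriv] at hmain
  calc ‖D‖ ≤ _ := hmain
    _ = (2 * W - 1) * (|C| + 1) := by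
      rw [div_div_eq_mul_div, div_one]

noncomputable def serN (N : Net) : ℕ → Net
  | 0 => N
  | k + 1 => ser (serN N k) N

lemma good_serN {N : Net} {W : ℝ} {D : ℂ} (h : Good N W D) (k : ℕ) :
    Good (serN N k) ((k + 1) * W) ((k + 1) * D) := by
  induction k with
  | zero => simpa [serN] using h
  | succ k ih =>
    have := good_ser ih h
    unfold serN
    convert this using 1
    · push_cast; ring
    · push_cast; ring

lemma good_base1 : Good (serN edge 19) 20 20 := by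
  have := good_serN good_edge 19
  norm_num at this
  exact this

lemma good_base2 : Good (serN (par (ser edge edge) (ser edge edge)) 14) 20 (40 / 3) := by
  have h1 := good_ser good_edge good_edge
  have h2 := good_par h1 h1 (by norm_num)
  have h3 := good_serN h2 14
  norm_num at h3
  exact h3

lemma growth (k : ℕ) : ∃ (N M : Net) (W : ℝ) (D1 D2 : ℂ), Good N W D1 ∧ Good M W D2 ∧ 20 ≤ W ∧
    (51 / 50 : ℝ) ^ k * (1 / 3) * W ≤ ‖D1 - D2‖ := by
  induction k with
  | zero =>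
    refine ⟨_, _, _, _, _, good_base1, good_base2, le_refl _, ?_⟩
    norm_num
  | succ k ih =>
    obtain ⟨N, M, W, D1, D2, hN, hM, hW, hk⟩ := ih
    have g1 := good_s8 hW hN hM
    have g2 := good_s8 hW hM hN
    have hden : (0 : ℝ) < 20 * W ^ 3 - 18 * W ^ 2 + 7 * W - 1 := by
      nlinarith [mul_pos (show (0 : ℝ) < W by linarith) (show (0 : ℝ) < W by linarith)]
    have hnum : (0 : ℝ) < 28 * W ^ 2 - 15 * W + 3 := by nlinarith
    refine ⟨_, _, _, _, _, g1, g2, ?_, ?_⟩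
    · rw [le_div_iff₀ hden]
      obtain ⟨t, rfl⟩ : ∃ t, W = 20 + t := ⟨W - 20, by ring⟩
      have ht : 0 ≤ t := by linarith
      have h : 0 ≤ (20 + t) ^ 2 * (28 * (20 + t) ^ 2 - 15 * (20 + t) + 3) -
          20 * (20 * (20 + t) ^ 3 - 18 * (20 + t) ^ 2 + 7 * (20 + t) - 1) := by
        ring_nf
        positivity
      linarith
    · have hdenc : (20 * (W : ℂ) ^ 3 - 18 * W ^ 2 + 7 * W - 1) ≠ 0 := by
        exact_mod_cast hden.ne'
      let κ : ℝ := ((80 * W ^ 3 - 39 * W ^ 2 + 6 * W) * (20 * W ^ 3 - 18 * W ^ 2 + 7 * W - 1) -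
        W ^ 2 * (28 * W ^ 2 - 15 * W + 3) * (36 * W ^ 2 - 24 * W + 5)) /
        (20 * W ^ 3 - 18 * W ^ 2 + 7 * W - 1) ^ 2
      have hdiff : (((96 * W ^ 3 - 42 * W ^ 2 + 6 * W) * D1 + (16 * W ^ 3 - 3 * W ^ 2) * D2) *
          (20 * W ^ 3 - 18 * W ^ 2 + 7 * W - 1)
        - (W ^ 2 * (28 * W ^ 2 - 15 * W + 3)) *
          ((48 * W ^ 2 - 30 * W + 6) * D1 + (12 * W ^ 2 - 6 * W + 1) * D2)) /
        (20 * W ^ 3 - 18 * W ^ 2 + 7 * W - 1) ^ 2 -
        (((96 * W ^ 3 - 42 * W ^ 2 + 6 * W) * D2 + (16 * W ^ 3 - 3 * W ^ 2) * D1) *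
          (20 * W ^ 3 - 18 * W ^ 2 + 7 * W - 1)
        - (W ^ 2 * (28 * W ^ 2 - 15 * W + 3)) *
          ((48 * W ^ 2 - 30 * W + 6) * D2 + (12 * W ^ 2 - 6 * W + 1) * D1)) /
        (20 * W ^ 3 - 18 * W ^ 2 + 7 * W - 1) ^ 2 = (κ : ℂ) * (D1 - D2) := by
        simp only [κ]
        push_cast
        field_simp
        ring
      rw [hdiff, norm_mul, Complex.norm_real, Real.norm_eq_abs]
      have hκ : (51 / 50 : ℝ) * (W * (28 * W ^ 2 - 15 * W + 3) /
          (20 * W ^ 3 - 18 * W ^ 2 + 7 * W - 1)) ≤ κ := by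
        simp only [κ]
        rw [le_div_iff₀ (by positivity)]
        have e : (51 / 50 : ℝ) * (W * (28 * W ^ 2 - 15 * W + 3) /
          (20 * W ^ 3 - 18 * W ^ 2 + 7 * W - 1)) * (20 * W ^ 3 - 18 * W ^ 2 + 7 * W - 1) ^ 2 =
          (51 / 50 : ℝ) * (W * (28 * W ^ 2 - 15 * W + 3)) *
            (20 * W ^ 3 - 18 * W ^ 2 + 7 * W - 1) := by
          have := hden.ne'
          generalize (20 * W ^ 3 - 18 * W ^ 2 + 7 * W - 1 : ℝ) = q at *
          field_simp
        rw [e]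
        obtain ⟨t, rfl⟩ : ∃ t, W = 20 + t := ⟨W - 20, by ring⟩
        have ht : 0 ≤ t := by linarith
        rw [← sub_nonneg]
        ring_nf
        positivity
      have hκ0 : 0 ≤ κ := le_trans (by positivity) hκ
      rw [abs_of_nonneg hκ0]
      calc (51 / 50 : ℝ) ^ (k + 1) * (1 / 3) *
            (W ^ 2 * (28 * W ^ 2 - 15 * W + 3) / (20 * W ^ 3 - 18 * W ^ 2 + 7 * W - 1))
          = ((51 / 50 : ℝ) * (W * (28 * W ^ 2 - 15 * W + 3) /
          (20 * W ^ 3 - 18 * W ^ 2 + 7 * W - 1))) * ((51 / 50 : ℝ) ^ k * (1 / 3) * W) := by ring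
        _ ≤ κ * ‖D1 - D2‖ := by
          apply mul_le_mul hκ hk (by positivity) hκ0

theorem not_bddW (C : ℝ) : ¬ BddW C := by
  intro hC
  obtain ⟨k, hk⟩ := pow_unbounded_of_one_lt (12 * (|C| + 1)) (show (1 : ℝ) < 51 / 50 by norm_num)
  obtain ⟨N, M, W, D1, D2, hN, hM, hW, hD⟩ := growth k
  have h1 := good_bound hC hN (by linarith)
  have h2 := good_bound hC hM (by linarith)
  have h3 := norm_sub_le D1 D2
  have hC0 : 0 ≤ |C| := abs_nonneg C
  have h4 : (51 / 50 : ℝ) ^ k * (1 / 3) * W ≤ 2 * ((2 * W - 1) * (|C| + 1)) := by linarith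
  have h5 : 12 * (|C| + 1) * (1 / 3) * W < (51 / 50 : ℝ) ^ k * (1 / 3) * W := by
    have : (0 : ℝ) < 1 / 3 * W := by linarith
    nlinarith
  nlinarith


end Pool.Agent.RelRootsBin
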