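import Mathlib
import Pool.Agent.RelRoots.BinaryUnbdd
import Pool.Agent.RelRoots.BinaryEval

set_option autoImplicit false
open Classical
open Pool.Agent.RelRoots

namespace Pool.Agent.RelRootsBin

/-- The matroid on `Fin n` whose independent sets are given by `In W`. -/
noncomputable def inMatroid (n : ℕ) (W : Submodule (ZMod 2) (Fin n → ZMod 2)) :
    Matroid (Fin n) :=
  (IndepMatroid.ofFinset (Set.univ : Set (Fin n)) (In W) (In_empty W)
    (fun _ _ h h' => In_subset W h h') (fun _ _ h h' h'' => In_aug W h h' h'')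
    (fun _ _ => Set.subset_univ _)).matroid

lemma inMatroid_E (n : ℕ) (W : Submodule (ZMod 2) (Fin n → ZMod 2)) :
    (inMatroid n W).E = Set.univ := by
  simp [inMatroid]

lemma inMatroid_indep (n : ℕ) (W : Submodule (ZMod 2) (Fin n → ZMod 2)) (S : Finset (Fin n)) :
    (inMatroid n W).Indep (S : Set (Fin n)) ↔ In W S := by
  unfold inMatroid
  simp only [IndepMatroid.matroid_Indep]
  rw [IndepMatroid.ofFinset_indep]

lemma inMatroid_dual_spanning (n : ℕ) (W : Submodule (ZMod 2) (Fin n → ZMod 2))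
    (S : Finset (Fin n)) : ((inMatroid n W)✶).Spanning (S : Set (Fin n)) ↔ Sp W S := by
  rw [Matroid.spanning_iff_compl_coindep
    (by rw [Matroid.dual_ground, inMatroid_E]; exact Set.subset_univ _),
    Matroid.coindep_def, Matroid.dual_ground, inMatroid_E]
  have : (Set.univ \ (S : Set (Fin n))) = ((Sᶜ : Finset (Fin n)) : Set (Fin n)) := by
    ext i; simp
  rw [this, Matroid.dual_dual, inMatroid_indep]
  unfold In Sp
  simp

lemma sum_single {n : ℕ} (I : Set (Fin n)) (g : Fin n → ZMod 2) (hg : ∀ i, i ∉ I → g i = 0) :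
    (∑ i : I, g i • (Pi.single (i : Fin n) 1 : Fin n → ZMod 2)) = g := by
  funext k
  rw [Finset.sum_apply]
  by_cases hk : k ∈ I
  · rw [Finset.sum_eq_single (⟨k, hk⟩ : I)]
    · simp
    · intro b _ hb
      have : k ≠ (b : Fin n) := fun h => hb (Subtype.ext h.symm)
      simp [this]
    · simp
  · rw [hg k hk]
    apply Finset.sum_eq_zero
    intro b _
    have : k ≠ (b : Fin n) := fun h => hk (h ▸ b.2)
    simp [this]

lemma isBinary_inMatroid (n : ℕ) (W : Submodule (ZMod 2) (Fin n → ZMod 2)) :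
    IsBinary (inMatroid n W) := by
  refine ⟨(Fin n → ZMod 2) ⧸ W, inferInstance, inferInstance,
    fun i => W.mkQ (Pi.single i 1), ?_⟩
  intro I _
  have h1 : (inMatroid n W).Indep I ↔ In W I.toFinset := by
    rw [← inMatroid_indep, Set.coe_toFinset]
  rw [h1, Fintype.linearIndependent_iff]
  have h2 : ∀ g : Fin n → ZMod 2, (∀ i, i ∉ I → g i = 0) →
      (∑ i : I, g i • W.mkQ (Pi.single (i : Fin n) 1)) = W.mkQ g := by
    intro g hg
    conv_rhs => rw [← sum_single I g hg]
    rw [map_sum]
    simp only [map_smul]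
  constructor
  · intro h g hg j
    let c : Fin n → ZMod 2 := fun i => if hi : i ∈ I then g ⟨i, hi⟩ else 0
    have hc : ∀ i, i ∉ I → c i = 0 := fun i hi => by simp [c, hi]
    have hcI : ∀ i : I, c i = g i := fun i => by simp [c]
    have h3 := h2 c hc
    simp only [hcI] at h3
    rw [hg] at h3
    have h4 : c ∈ W := by
      rw [← Submodule.ker_mkQ W, LinearMap.mem_ker]
      exact h3.symm
    have h5 := h c h4 (fun i hi => hc i (by simpa using hi))
    rw [← hcI, h5]
    rfl
  · intro h c hc hs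
    have hs' : ∀ i, i ∉ I → c i = 0 := fun i hi => hs i (by simpa using hi)
    have h3 := h2 c hs'
    have h4 : W.mkQ c = 0 := by
      rw [← LinearMap.mem_ker, Submodule.ker_mkQ]
      exact hc
    rw [h4] at h3
    have h5 := h (fun i => c i) h3
    funext i
    by_cases hi : i ∈ I
    · exact h5 ⟨i, hi⟩
    · exact hs' i hi

/-- complementing the sets -/
lemma sum_compl {n : ℕ} (W : Submodule (ZMod 2) (Fin n → ZMod 2)) (z : ℂ) :
    (∑ S : Finset (Fin n), if In W S then (1 - z) ^ S.card * (1 - (1 - z)) ^ (n - S.card) else 0) =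
    ∑ S : Finset (Fin n), if Sp W S then z ^ S.card * (1 - z) ^ (n - S.card) else 0 := by
  rw [← Equiv.sum_comp (Equiv.ofBijective (fun S : Finset (Fin n) => Sᶜ)
    (Function.Involutive.bijective compl_compl))]
  apply Finset.sum_congr rfl
  intro S _
  have h1 : In W Sᶜ ↔ Sp W S := by
    unfold In Sp; simp
  have h2 : (Sᶜ).card = n - S.card := by rw [Finset.card_compl, Fintype.card_fin]
  have h3 : S.card ≤ n := by
    have := Finset.card_le_univ S
    simpa using this
  have h4 : n - (n - S.card) = S.card := by omega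
  simp only [Equiv.ofBijective_apply, h1, h2, h4, sub_sub_cancel]
  by_cases h : Sp W S
  · rw [if_pos h, if_pos h, mul_comm]
  · rw [if_neg h, if_neg h]

theorem main (R : ℝ) : ∃ (n : ℕ) (M : Matroid (Fin n)), M.E = Set.univ ∧ IsBinary M ∧
    ∃ z : ℂ, (relPoly M).IsRoot z ∧ (spanPoly M✶).IsRoot (1 - z) ∧ R < ‖z‖ ∧ R < ‖1 - z‖ := by
  have h := not_bddW (|R| + 1)
  unfold BddW at h
  push Not at h
  obtain ⟨n, W, z, hz, hR⟩ := h
  have hR0 : R ≤ |R| := le_abs_self R
  refine ⟨n, inMatroid n W, inMatroid_E n W, isBinary_inMatroid n W, 1 - z, ?_, ?_, ?_, ?_⟩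
  · rw [Polynomial.IsRoot.def, relPoly_eval _ (inMatroid_E n W)]
    simp only [inMatroid_indep]
    rw [sum_compl]
    exact hz
  · rw [Polynomial.IsRoot.def, spanPoly_eval _ (by rw [Matroid.dual_ground, inMatroid_E]),
      sub_sub_cancel]
    simp only [inMatroid_dual_spanning]
    exact hz
  · have h6 : ‖z‖ - 1 ≤ ‖1 - z‖ := by
      have := norm_sub_norm_le z (1 : ℂ)
      rw [norm_one, norm_sub_rev] at this
      exact this
    linarith
  · rw [sub_sub_cancel]
    linarith

end Pool.Agent.RelRootsBin
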